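import Mathlib

/-!
# Strict conditional independence models without rational points

Negative answer to Matus's question: there is a nonempty strict CI model (15 binary
random variables) none of whose tables is rational; every table in it generates a field
that contains the square root of 5.
-/

set_option autoImplicit false

namespace Pool.Agent.Results.MP_c213cb_ag.NoRationalPoint

open Finset

/-- A state assigns to each of the `n` random variables one of its `d k` values. -/
abbrev State {n : ℕ} (d : Fin n → ℕ) : Type := (k : Fin n) → Fin (d k)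

/-- A real table: one real number for every state. -/
abbrev Table {n : ℕ} (d : Fin n → ℕ) : Type := State d → ℝ

/-- The marginal of the table `p` on the set of coordinates `A`, read off at the state `x`
(only the coordinates of `x` in `A` matter): the sum of `p z` over all states `z` which
agree with `x` on `A`. -/
noncomputable def marginal {n : ℕ} {d : Fin n → ℕ} (p : Table d) (A : Finset (Fin n))
    (x : State d) : ℝ :=
  ∑ z : State d with (∀ k ∈ A, z k = x k), p z

/-- A CI statement `X_i ⊥ X_j | X_K` with `i ≠ j` and `K` a set of indices not containing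
`i` or `j`. -/
structure CIStatement (n : ℕ) where
  /-- the first index -/
  i : Fin n
  /-- the second index -/
  j : Fin n
  /-- the conditioning set -/
  K : Finset (Fin n)
  hij : i ≠ j
  hi : i ∉ K
  hj : j ∉ K

/-- The CI statement `s` holds for the table `p`: all the two by two minors
`p_{ijK}(a,b,c) p_{ijK}(a',b',c) - p_{ijK}(a,b',c) p_{ijK}(a',b,c)` vanish. Here
`x` carries `(a,b,c)` and `y` carries `(a',b',c)`. -/
def Holds {n : ℕ} {d : Fin n → ℕ} (p : Table d) (s : CIStatement n) : Prop :=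
  ∀ x y : State d, (∀ k ∈ s.K, x k = y k) →
    marginal p (insert s.i (insert s.j s.K)) x * marginal p (insert s.i (insert s.j s.K)) y =
    marginal p (insert s.i (insert s.j s.K)) (Function.update x s.j (y s.j)) *
      marginal p (insert s.i (insert s.j s.K)) (Function.update y s.j (x s.j))

/-- The strict CI model of a set `S` of CI statements: the positive tables for which
exactly the CI statements of `S` hold. -/
def strictModel {n : ℕ} (d : Fin n → ℕ) (S : Set (CIStatement n)) : Set (Table d) :=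
  {p | (∀ x, 0 < p x) ∧ ∀ s : CIStatement n, s ∈ S ↔ Holds p s}

/-! ## Algebraic core -/

lemma cancel_left {c A : ℝ} (hc : c ≠ 0) (h : c * A = 0) : A = 0 :=
  (mul_eq_zero.mp h).resolve_left hc

/-- The algebraic relation forced by the orthogonality pattern, in coordinates with
respect to an orthogonal basis. -/
lemma core_algebra (n1 n2 n3 : ℝ) (h1 : n1 ≠ 0) (h2 : n2 ≠ 0) (h3 : n3 ≠ 0)
    (u1 u2 w2 w3 a1 a2 b2 b3 m1 m2 m3 x1 x3 y1 y2 y3 z1 z3 p1 p2 p3 q1 q2 q3 : ℝ)
    (hu1 : u1 ≠ 0) (hu2 : u2 ≠ 0) (hw2 : w2 ≠ 0) (hw3 : w3 ≠ 0) (ha1 : a1 ≠ 0)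
    (hb2 : b2 ≠ 0) (hm1 : m1 ≠ 0) (hx1 : x1 ≠ 0) (hy1 : y1 ≠ 0) (hz1 : z1 ≠ 0)
    (hp1 : p1 ≠ 0) (hq1 : q1 ≠ 0)
    (e1 : n1 * u1 * a1 + n2 * u2 * a2 = 0)
    (e2 : n2 * w2 * b2 + n3 * w3 * b3 = 0)
    (e3 : n1 * u1 * m1 + n2 * u2 * m2 = 0)
    (e4 : n2 * w2 * m2 + n3 * w3 * m3 = 0)
    (e5 : n1 * m1 * x1 + n3 * m3 * x3 = 0)
    (e6 : n1 * u1 * y1 + n2 * u2 * y2 = 0)
    (e7 : n2 * b2 * y2 + n3 * b3 * y3 = 0)
    (e8 : n1 * y1 * z1 + n3 * y3 * z3 = 0)
    (e9 : n1 * a1 * p1 + n2 * a2 * p2 = 0)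
    (e10 : n1 * x1 * p1 + n3 * x3 * p3 = 0)
    (e11 : n1 * a1 * q1 + n2 * a2 * q2 = 0)
    (e12 : n1 * z1 * q1 + n3 * z3 * q3 = 0)
    (e13 : n1 * p1 * q1 + n2 * p2 * q2 + n3 * p3 * q3 = 0) :
    (n1 * u1 ^ 2 / (n2 * u2 ^ 2)) ^ 2 = n1 * u1 ^ 2 / (n2 * u2 ^ 2) + 1 := by
  have A2 : a2 = -(n1 * u1 * a1) / (n2 * u2) := by
    rw [eq_div_iff (mul_ne_zero h2 hu2)]; linarith
  have B3 : b3 = -(n2 * w2 * b2) / (n3 * w3) := by
    rw [eq_div_iff (mul_ne_zero h3 hw3)]; linarith
  have M2 : m2 = -(n1 * u1 * m1) / (n2 * u2) := by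
    rw [eq_div_iff (mul_ne_zero h2 hu2)]; linarith
  have M3 : m3 = n1 * u1 * w2 * m1 / (u2 * n3 * w3) := by
    rw [eq_div_iff (by positivity)]
    rw [M2] at e4
    field_simp at e4
    linear_combination e4
  have X3 : x3 = -(x1 * u2 * w3) / (u1 * w2) := by
    rw [M3] at e5
    field_simp at e5 ⊢
    have := cancel_left (mul_ne_zero h1 hm1) (e5.trans (mul_zero _))
    linear_combination this
  have Y2 : y2 = -(n1 * u1 * y1) / (n2 * u2) := by
    rw [eq_div_iff (mul_ne_zero h2 hu2)]; linarith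
  have Y3 : y3 = -(n1 * u1 * w3 * y1) / (n2 * u2 * w2) := by
    rw [B3, Y2] at e7
    field_simp at e7 ⊢
    have := cancel_left hb2 (e7.trans (mul_zero _))
    linear_combination -this
  have Z3 : z3 = z1 * n2 * u2 * w2 / (n3 * u1 * w3) := by
    rw [Y3] at e8
    field_simp at e8 ⊢
    have := cancel_left (mul_ne_zero h1 hy1) (e8.trans (mul_zero _))
    linear_combination -this
  have P2 : p2 = p1 * u2 / u1 := by
    rw [A2] at e9
    field_simp at e9 ⊢
    have := cancel_left (mul_ne_zero h1 ha1) (e9.trans (mul_zero _))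
    linear_combination -this
  have P3 : p3 = n1 * p1 * u1 * w2 / (n3 * u2 * w3) := by
    rw [X3] at e10
    field_simp at e10 ⊢
    have := cancel_left hx1 (e10.trans (mul_zero _))
    linear_combination -this
  have Q2 : q2 = q1 * u2 / u1 := by
    rw [A2] at e11
    field_simp at e11 ⊢
    have := cancel_left (mul_ne_zero h1 ha1) (e11.trans (mul_zero _))
    linear_combination -this
  have Q3 : q3 = -(n1 * q1 * u1 * w3) / (n2 * u2 * w2) := by
    rw [Z3] at e12
    field_simp at e12 ⊢
    have := cancel_left hz1 (e12.trans (mul_zero _))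
    linear_combination this
  rw [P2, P3, Q2, Q3] at e13
  field_simp at e13 ⊢
  have := cancel_left (mul_ne_zero hp1 hq1) (e13.trans (mul_zero _))
  linear_combination -this

/-! ## Parseval identity in dimension four -/

lemma parseval (M : Fin 4 → ℝ) (e : Fin 4 → Fin 4 → ℝ)
    (orth : ∀ a b, a ≠ b → ∑ z, M z * e a z * e b z = 0)
    (nz : ∀ a, ∑ z, M z * e a z * e a z ≠ 0) (f g : Fin 4 → ℝ) :
    ∑ z, M z * f z * g z =
      ∑ a, (∑ z, M z * f z * e a z) * (∑ z, M z * g z * e a z) /
        (∑ z, M z * e a z * e a z) := by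
  set N : Fin 4 → ℝ := fun a => ∑ z, M z * e a z * e a z with hN
  have h1 : (Matrix.of fun a z => M z * e a z / N a) * (Matrix.of fun z b => e b z)
      = (1 : Matrix (Fin 4) (Fin 4) ℝ) := by
    ext a b
    rw [Matrix.mul_apply]
    simp only [Matrix.of_apply]
    by_cases hab : a = b
    · subst hab
      rw [Matrix.one_apply_eq]
      have : ∑ z, M z * e a z / N a * e a z = (∑ z, M z * e a z * e a z) / N a := by
        rw [Finset.sum_div]; refine Finset.sum_congr rfl fun z _ => by ring
      rw [this]; exact div_self (nz a)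
    · rw [Matrix.one_apply_ne hab]
      have : ∑ z, M z * e a z / N a * e b z = (∑ z, M z * e a z * e b z) / N a := by
        rw [Finset.sum_div]; refine Finset.sum_congr rfl fun z _ => by ring
      rw [this, orth a b hab, zero_div]
  have h2 := mul_eq_one_comm.mp h1
  have h3 : ∀ z' z, ∑ a, e a z' * (M z * e a z / N a) = if z' = z then 1 else 0 := by
    intro z' z
    have := congrFun (congrFun h2 z') z
    rw [Matrix.mul_apply, Matrix.one_apply] at this
    simpa only [Matrix.of_apply] using this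
  have h4 : ∀ z', f z' = ∑ a, e a z' * (∑ z, M z * f z * e a z) / N a := by
    intro z'
    have : ∑ a, e a z' * (∑ z, M z * f z * e a z) / N a
        = ∑ z, (∑ a, e a z' * (M z * e a z / N a)) * f z := by
      simp only [Finset.mul_sum, Finset.sum_mul, Finset.sum_div]
      rw [Finset.sum_comm]
      refine Finset.sum_congr rfl fun z _ => Finset.sum_congr rfl fun a _ => by ring
    rw [this]
    simp only [h3]
    simp
  calc ∑ z, M z * f z * g z
      = ∑ z, M z * (∑ a, e a z * (∑ z, M z * f z * e a z) / N a) * g z := by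
        refine Finset.sum_congr rfl fun z _ => by rw [← h4 z]
    _ = ∑ a, (∑ z, M z * f z * e a z) * (∑ z, M z * g z * e a z) / N a := by
        simp only [Finset.mul_sum, Finset.sum_mul, Finset.sum_div]
        rw [Finset.sum_comm]
        refine Finset.sum_congr rfl fun a _ => ?_
        refine Finset.sum_congr rfl fun z _ => Finset.sum_congr rfl fun y _ => by ring

/-! ## Binary tables in fifteen variables -/

/-- all fifteen variables are binary -/
abbrev D : Fin 15 → ℕ := fun _ => 2

/-- states of fifteen binary variables -/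
abbrev St : Type := State D

/-- sum of the table over an event -/
noncomputable def S (q : Table D) (φ : St → Prop) [DecidablePred φ] : ℝ := ∑ x with φ x, q x

lemma S_congr (q : Table D) (φ ψ : St → Prop) [DecidablePred φ] [DecidablePred ψ]
    (h : ∀ x, φ x ↔ ψ x) : S q φ = S q ψ := by
  unfold S
  congr 1
  ext x
  simp [h x]

lemma S_split (q : Table D) (φ : St → Prop) [DecidablePred φ] (j : Fin 15) :
    S q φ = S q (fun x => φ x ∧ x j = 0) + S q (fun x => φ x ∧ x j = 1) := by
  unfold S
  rw [Finset.sum_filter, Finset.sum_filter, Finset.sum_filter, ← Finset.sum_add_distrib]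
  refine Finset.sum_congr rfl fun x _ => ?_
  by_cases h : φ x
  · have h2 : x j = 0 ∨ x j = 1 := by
      rcases x j with ⟨v, hv⟩
      rcases v with _ | _ | v
      · left; rfl
      · right; rfl
      · exact absurd hv (by simp)
    rcases h2 with h2 | h2 <;> simp [h, h2]
  · simp [h]

lemma marginal_eq_S (q : Table D) (A : Finset (Fin 15)) (x : St) :
    marginal q A x = S q (fun z => ∀ k ∈ A, z k = x k) := rfl

/-- first binary digit of the hidden index -/
def z1 : Fin 4 → Fin 2 := ![0, 0, 1, 1]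

/-- second binary digit of the hidden index -/
def z2 : Fin 4 → Fin 2 := ![0, 1, 0, 1]

/-- sum over the cell `z` of the event `φ` -/
noncomputable def C (q : Table D) (φ : St → Prop) [DecidablePred φ] (z : Fin 4) : ℝ :=
  S q (fun x => (φ x ∧ x 0 = z1 z) ∧ x 1 = z2 z)

lemma sum_C (q : Table D) (φ : St → Prop) [DecidablePred φ] : ∑ z, C q φ z = S q φ := by
  rw [Fin.sum_univ_four, S_split q φ 0, S_split q (fun x => φ x ∧ x 0 = 0) 1,
    S_split q (fun x => φ x ∧ x 0 = 1) 1]
  have c0 : C q φ 0 = S q (fun x => (φ x ∧ x 0 = 0) ∧ x 1 = 0) :=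
    S_congr q _ _ fun x => Iff.rfl
  have c1 : C q φ 1 = S q (fun x => (φ x ∧ x 0 = 0) ∧ x 1 = 1) :=
    S_congr q _ _ fun x => Iff.rfl
  have c2 : C q φ 2 = S q (fun x => (φ x ∧ x 0 = 1) ∧ x 1 = 0) :=
    S_congr q _ _ fun x => Iff.rfl
  have c3 : C q φ 3 = S q (fun x => (φ x ∧ x 0 = 1) ∧ x 1 = 1) :=
    S_congr q _ _ fun x => Iff.rfl
  rw [c0, c1, c2, c3]
  ring

lemma C_split (q : Table D) (φ : St → Prop) [DecidablePred φ] (j : Fin 15) (z : Fin 4) :
    C q φ z = C q (fun x => φ x ∧ x j = 0) z + C q (fun x => φ x ∧ x j = 1) z := by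
  unfold C
  rw [S_split q _ j]
  congr 1 <;> exact S_congr q _ _ (fun x => by tauto)

/-- the statement `X_i ⊥ X_j` -/
def s0 (i j : Fin 15) (hij : i ≠ j) : CIStatement 15 :=
  ⟨i, j, ∅, hij, by simp, by simp⟩

/-- the statement `X_i ⊥ X_j | (X_0, X_1)` -/
def s1 (i j : Fin 15) (hij : i ≠ j) (hi0 : i ≠ 0) (hi1 : i ≠ 1) (hj0 : j ≠ 0) (hj1 : j ≠ 1) :
    CIStatement 15 :=
  ⟨i, j, {0, 1}, hij, by simp [hi0, hi1], by simp [hj0, hj1]⟩

/-- A state with prescribed values. -/
def bs (i j : Fin 15) (z : Fin 4) (a b : Fin 2) : St :=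
  fun k => if k = 0 then z1 z else if k = 1 then z2 z else if k = i then a else
    if k = j then b else 0

lemma cond_minor (q : Table D) (i j : Fin 15) (hij : i ≠ j) (hi0 : i ≠ 0) (hi1 : i ≠ 1)
    (hj0 : j ≠ 0) (hj1 : j ≠ 1) (h : Holds q (s1 i j hij hi0 hi1 hj0 hj1)) (z : Fin 4) :
    C q (fun x => x i = 1 ∧ x j = 1) z * C q (fun _ => True) z =
      C q (fun x => x i = 1) z * C q (fun x => x j = 1) z := by
  have key : ∀ a b : Fin 2, ∀ x : St, x i = a → x j = b → x 0 = z1 z → x 1 = z2 z →
      marginal q (insert i (insert j {0, 1})) x = C q (fun x => x i = a ∧ x j = b) z := by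
    intro a b x h1 h2 h3 h4
    rw [marginal_eq_S]
    refine S_congr q _ _ fun y => ?_
    simp only [Finset.forall_mem_insert, Finset.mem_singleton, forall_eq]
    rw [h1, h2, h3, h4]
    tauto
  have H := h (bs i j z 1 1) (bs i j z 0 0) (by
    intro k hk
    simp only [s1, Finset.mem_insert, Finset.mem_singleton] at hk
    rcases hk with rfl | rfl <;> simp [bs])
  simp only [s1] at H
  rw [key 1 1 _ (by simp [bs, hi0, hi1]) (by simp [bs, hj0, hj1, hij.symm]) (by simp [bs])
      (by simp [bs]),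
    key 0 0 _ (by simp [bs, hi0, hi1]) (by simp [bs, hj0, hj1]) (by simp [bs])
      (by simp [bs]),
    key 1 0 _ (by rw [Function.update_of_ne hij]; simp [bs, hi0, hi1])
      (by rw [Function.update_self]; simp [bs, hj0, hj1])
      (by rw [Function.update_of_ne hj0.symm]; simp [bs])
      (by rw [Function.update_of_ne hj1.symm]; simp [bs]),
    key 0 1 _ (by rw [Function.update_of_ne hij]; simp [bs, hi0, hi1])
      (by rw [Function.update_self]; simp [bs, hj0, hj1, hij.symm])
      (by rw [Function.update_of_ne hj0.symm]; simp [bs])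
      (by rw [Function.update_of_ne hj1.symm]; simp [bs])] at H
  have eT : C q (fun _ => True) z =
      C q (fun x => x i = 0 ∧ x j = 0) z + C q (fun x => x i = 0 ∧ x j = 1) z +
      (C q (fun x => x i = 1 ∧ x j = 0) z + C q (fun x => x i = 1 ∧ x j = 1) z) := by
    rw [C_split q _ i, C_split q (fun x => True ∧ x i = 0) j,
      C_split q (fun x => True ∧ x i = 1) j]
    congr 1 <;> congr 1 <;> exact S_congr q _ _ (fun x => by tauto)
  have ei : C q (fun x => x i = 1) z =
      C q (fun x => x i = 1 ∧ x j = 0) z + C q (fun x => x i = 1 ∧ x j = 1) z := by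
    rw [C_split q _ j]
  have ej : C q (fun x => x j = 1) z =
      C q (fun x => x i = 0 ∧ x j = 1) z + C q (fun x => x i = 1 ∧ x j = 1) z := by
    rw [C_split q _ i]
    congr 1 <;> exact S_congr q _ _ (fun x => by tauto)
  rw [eT, ei, ej]
  linear_combination H

lemma marg_iff (q : Table D) (i j : Fin 15) (hij : i ≠ j) :
    Holds q (s0 i j hij) ↔
      S q (fun x => x i = 1 ∧ x j = 1) * S q (fun _ => True) =
        S q (fun x => x i = 1) * S q (fun x => x j = 1) := by
  have key : ∀ x : St, marginal q (insert i (insert j ∅)) x =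
      S q (fun y => y i = x i ∧ y j = x j) := by
    intro x
    rw [marginal_eq_S]
    refine S_congr q _ _ fun y => ?_
    simp
  have eT : S q (fun _ => True) =
      S q (fun x => x i = 0 ∧ x j = 0) + S q (fun x => x i = 0 ∧ x j = 1) +
      (S q (fun x => x i = 1 ∧ x j = 0) + S q (fun x => x i = 1 ∧ x j = 1)) := by
    rw [S_split q _ i, S_split q (fun x => True ∧ x i = 0) j,
      S_split q (fun x => True ∧ x i = 1) j]
    congr 1 <;> congr 1 <;> exact S_congr q _ _ (fun x => by tauto)
  have ei : S q (fun x => x i = 1) =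
      S q (fun x => x i = 1 ∧ x j = 0) + S q (fun x => x i = 1 ∧ x j = 1) := by
    rw [S_split q _ j]
  have ej : S q (fun x => x j = 1) =
      S q (fun x => x i = 0 ∧ x j = 1) + S q (fun x => x i = 1 ∧ x j = 1) := by
    rw [S_split q _ i]
    congr 1 <;> exact S_congr q _ _ (fun x => by tauto)
  have two : ∀ v : Fin 2, v = 0 ∨ v = 1 := by decide
  constructor
  · intro h
    have H := h (fun k => if k = i then 1 else if k = j then 1 else 0) (fun _ => 0)
      (by intro k hk; simp [s0] at hk)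
    simp only [s0] at H
    rw [key, key, key, key, Function.update_of_ne hij, Function.update_of_ne hij,
      Function.update_self, Function.update_self] at H
    simp only [if_true, if_neg hij.symm] at H
    rw [eT, ei, ej]
    linear_combination H
  · intro h x y _
    simp only [s0]
    rw [key, key, key, key]
    rw [eT, ei, ej] at h
    rw [Function.update_of_ne hij, Function.update_of_ne hij, Function.update_self,
      Function.update_self]
    rcases two (x i) with h1 | h1 <;> rcases two (x j) with h2 | h2 <;>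
      rcases two (y i) with h3 | h3 <;> rcases two (y j) with h4 | h4 <;>
      rw [h1, h2, h3, h4] <;> linarith

/-! ## Consequences for an arbitrary positive table -/

section Arbitrary

variable (q : Table D)

/-- weight of the cell `z` -/
noncomputable def W (z : Fin 4) : ℝ := C q (fun _ => True) z

/-- total mass -/
noncomputable def T : ℝ := S q (fun _ => True)

/-- centred conditional probability of `X_i = 1` given the cell -/
noncomputable def g (i : Fin 15) (z : Fin 4) : ℝ :=
  C q (fun x => x i = 1) z / W q z - S q (fun x => x i = 1) / T q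

/-- inner product of two functions on the cells -/
noncomputable def ip (f h : Fin 4 → ℝ) : ℝ := ∑ z, W q z * f z * h z

lemma W_pos (hq : ∀ x, 0 < q x) (z : Fin 4) : 0 < W q z := by
  unfold W C S
  refine Finset.sum_pos (fun x _ => hq x) ⟨fun k => if k = 0 then z1 z else z2 z, ?_⟩
  simp

lemma T_pos (hq : ∀ x, 0 < q x) : 0 < T q := by
  unfold T S
  refine Finset.sum_pos (fun x _ => hq x) ⟨fun _ => 0, ?_⟩
  simp

lemma sum_W : ∑ z, W q z = T q := sum_C q _

lemma ip_one (hq : ∀ x, 0 < q x) (i : Fin 15) : ∑ z, W q z * g q i z = 0 := by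
  have hW : ∀ z, W q z ≠ 0 := fun z => (W_pos q hq z).ne'
  have hT : T q ≠ 0 := (T_pos q hq).ne'
  have h1 : ∀ z, W q z * g q i z = C q (fun x => x i = 1) z
      - W q z * (S q (fun x => x i = 1) / T q) := by
    intro z
    unfold g
    rw [mul_sub, mul_div_cancel₀ _ (hW z)]
  simp only [h1]
  rw [Finset.sum_sub_distrib, ← Finset.sum_mul, sum_W, sum_C, mul_div_cancel₀ _ hT, sub_self]

lemma ip_g (hq : ∀ x, 0 < q x) (i j : Fin 15)
    (hc : ∀ z, C q (fun x => x i = 1 ∧ x j = 1) z * C q (fun _ => True) z =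
      C q (fun x => x i = 1) z * C q (fun x => x j = 1) z) :
    ip q (g q i) (g q j) = S q (fun x => x i = 1 ∧ x j = 1) -
      S q (fun x => x i = 1) * S q (fun x => x j = 1) / T q := by
  have hW : ∀ z, W q z ≠ 0 := fun z => (W_pos q hq z).ne'
  have hT : T q ≠ 0 := (T_pos q hq).ne'
  have h1 : ∀ z, W q z * g q i z * g q j z = C q (fun x => x i = 1 ∧ x j = 1) z
      - (C q (fun x => x j = 1) z) * (S q (fun x => x i = 1) / T q)
      - (W q z * g q i z) * (S q (fun x => x j = 1) / T q) := by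
    intro z
    have h2 : C q (fun x => x i = 1 ∧ x j = 1) z =
        C q (fun x => x i = 1) z * C q (fun x => x j = 1) z / W q z := by
      rw [eq_div_iff (hW z)]; exact hc z
    rw [h2]
    unfold g
    have := hW z
    field_simp
  unfold ip
  simp only [h1]
  rw [Finset.sum_sub_distrib, Finset.sum_sub_distrib, ← Finset.sum_mul, ← Finset.sum_mul,
    ip_one q hq i, sum_C, sum_C]
  ring

lemma orth_iff (hq : ∀ x, 0 < q x) (i j : Fin 15) (hij : i ≠ j)
    (hc : ∀ z, C q (fun x => x i = 1 ∧ x j = 1) z * C q (fun _ => True) z =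
      C q (fun x => x i = 1) z * C q (fun x => x j = 1) z) :
    ip q (g q i) (g q j) = 0 ↔ Holds q (s0 i j hij) := by
  have hT : T q ≠ 0 := (T_pos q hq).ne'
  rw [marg_iff, ip_g q hq i j hc, sub_eq_zero, eq_div_iff hT]
  rfl

lemma ip_comm (f h : Fin 4 → ℝ) : ip q f h = ip q h f :=
  Finset.sum_congr rfl fun z _ => by ring

lemma ip_self_ne (hq : ∀ x, 0 < q x) (f h : Fin 4 → ℝ) (hne : ip q f h ≠ 0) :
    ip q f f ≠ 0 := by
  intro h0
  apply hne
  have h1 : ∀ z ∈ (Finset.univ : Finset (Fin 4)), W q z * f z * f z = 0 := by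
    refine (Finset.sum_eq_zero_iff_of_nonneg fun z _ => ?_).mp h0
    have := W_pos q hq z
    have h3 : W q z * f z * f z = W q z * (f z * f z) := by ring
    rw [h3]
    exact mul_nonneg this.le (mul_self_nonneg _)
  have h2 : ∀ z, f z = 0 := by
    intro z
    have h3 := h1 z (Finset.mem_univ z)
    have h4 : W q z * (f z * f z) = 0 := by rw [← h3]; ring
    have h5 := (mul_eq_zero.mp h4).resolve_left (W_pos q hq z).ne'
    exact mul_self_eq_zero.mp h5
  unfold ip
  refine Finset.sum_eq_zero fun z _ => by rw [h2 z]; ring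

/-- Coordinates of the inner product in the orthogonal basis given by the variables
2, 3, 4. -/
lemma ip_expand (hq : ∀ x, 0 < q x) (h23 : ip q (g q 2) (g q 3) = 0)
    (h24 : ip q (g q 2) (g q 4) = 0) (h34 : ip q (g q 3) (g q 4) = 0)
    (n2 : ip q (g q 2) (g q 2) ≠ 0) (n3 : ip q (g q 3) (g q 3) ≠ 0)
    (n4 : ip q (g q 4) (g q 4) ≠ 0) (i j : Fin 15) :
    ip q (g q i) (g q j) =
      (ip q (g q 2) (g q 2))⁻¹ * ip q (g q i) (g q 2) * ip q (g q j) (g q 2) +
      (ip q (g q 3) (g q 3))⁻¹ * ip q (g q i) (g q 3) * ip q (g q j) (g q 3) +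
      (ip q (g q 4) (g q 4))⁻¹ * ip q (g q i) (g q 4) * ip q (g q j) (g q 4) := by
  have hone : ∀ i, ∑ z, W q z * g q i z * 1 = 0 := by
    intro i
    rw [← ip_one q hq i]
    exact Finset.sum_congr rfl fun z _ => by ring
  have hone' : ∀ i, ∑ z, W q z * 1 * g q i z = 0 := by
    intro i
    rw [← ip_one q hq i]
    exact Finset.sum_congr rfl fun z _ => by ring
  have key := parseval (W q) ![fun _ => 1, g q 2, g q 3, g q 4] ?_ ?_ (g q i) (g q j)
  · have key2 : ∑ z, W q z * g q i z * g q j z =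
      (∑ z, W q z * g q i z * 1) * (∑ z, W q z * g q j z * 1) / (∑ z, W q z * 1 * 1) +
      (∑ z, W q z * g q i z * g q 2 z) * (∑ z, W q z * g q j z * g q 2 z) /
        (∑ z, W q z * g q 2 z * g q 2 z) +
      (∑ z, W q z * g q i z * g q 3 z) * (∑ z, W q z * g q j z * g q 3 z) /
        (∑ z, W q z * g q 3 z * g q 3 z) +
      (∑ z, W q z * g q i z * g q 4 z) * (∑ z, W q z * g q j z * g q 4 z) /
        (∑ z, W q z * g q 4 z * g q 4 z) := key.trans (Fin.sum_univ_four _)
    clear key
    rename ∑ z, W q z * g q i z * g q j z = _ => key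
    rw [hone i, zero_mul, zero_div, zero_add] at key
    unfold ip at n2 n3 n4 ⊢
    rw [key]
    ring
  · intro a b hab
    fin_cases a <;> fin_cases b
    · exact absurd rfl hab
    · exact hone' 2
    · exact hone' 3
    · exact hone' 4
    · exact hone 2
    · exact absurd rfl hab
    · exact h23
    · exact h24
    · exact hone 3
    · exact (ip_comm q _ _).trans h23
    · exact absurd rfl hab
    · exact h34
    · exact hone 4
    · exact (ip_comm q _ _).trans h24
    · exact (ip_comm q _ _).trans h34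
    · exact absurd rfl hab
  · intro a
    fin_cases a
    · show ∑ z, W q z * 1 * 1 ≠ 0
      simp only [mul_one]
      rw [sum_W]
      exact (T_pos q hq).ne'
    · exact n2
    · exact n3
    · exact n4

end Arbitrary

/-! ## The forced relation -/

/-- the orthogonal pairs that are used -/
def orthPairs : List (Fin 15 × Fin 15) :=
  [(2, 3), (2, 4), (3, 4), (5, 4), (6, 2), (7, 2), (6, 7), (8, 4), (5, 8), (5, 9), (6, 9),
    (10, 3), (9, 10), (5, 11), (7, 11), (12, 3), (11, 12), (8, 13), (10, 13), (8, 14),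
    (12, 14), (13, 14)]

/-- the non-orthogonal pairs that are used -/
def nonPairs : List (Fin 15 × Fin 15) :=
  [(5, 2), (5, 3), (6, 3), (6, 4), (8, 2), (7, 3), (9, 2), (10, 2), (11, 2), (12, 2),
    (13, 2), (14, 2)]

lemma forced (q : Table D) (hq : ∀ x, 0 < q x)
    (ho : ∀ c ∈ orthPairs, ip q (g q c.1) (g q c.2) = 0)
    (hn : ∀ c ∈ nonPairs, ip q (g q c.1) (g q c.2) ≠ 0) :
    ∃ r ∈ Subfield.closure (Set.range q), r ^ 2 = r + 1 := by
  have o : ∀ a b, (a, b) ∈ orthPairs → ip q (g q a) (g q b) = 0 := fun a b h => ho (a, b) h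
  have n : ∀ a b, (a, b) ∈ nonPairs → ip q (g q a) (g q b) ≠ 0 := fun a b h => hn (a, b) h
  have n2 : ip q (g q 2) (g q 2) ≠ 0 :=
    ip_self_ne q hq _ (g q 5) (by rw [ip_comm]; exact n 5 2 (by decide))
  have n3 : ip q (g q 3) (g q 3) ≠ 0 :=
    ip_self_ne q hq _ (g q 5) (by rw [ip_comm]; exact n 5 3 (by decide))
  have n4 : ip q (g q 4) (g q 4) ≠ 0 :=
    ip_self_ne q hq _ (g q 6) (by rw [ip_comm]; exact n 6 4 (by decide))
  have ex := ip_expand q hq (o 2 3 (by decide)) (o 2 4 (by decide)) (o 3 4 (by decide)) n2 n3 n4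
  have E : ∀ a b, (a, b) ∈ orthPairs →
      (ip q (g q 2) (g q 2))⁻¹ * ip q (g q a) (g q 2) * ip q (g q b) (g q 2) +
      (ip q (g q 3) (g q 3))⁻¹ * ip q (g q a) (g q 3) * ip q (g q b) (g q 3) +
      (ip q (g q 4) (g q 4))⁻¹ * ip q (g q a) (g q 4) * ip q (g q b) (g q 4) = 0 :=
    fun a b h => by rw [← ex a b]; exact o a b h
  have c54 := o 5 4 (by decide)
  have c62 := o 6 2 (by decide)
  have c72 := o 7 2 (by decide)
  have c84 := o 8 4 (by decide)
  have c103 := o 10 3 (by decide)
  have c123 := o 12 3 (by decide)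
  have key := core_algebra (ip q (g q 2) (g q 2))⁻¹ (ip q (g q 3) (g q 3))⁻¹
    (ip q (g q 4) (g q 4))⁻¹ (inv_ne_zero n2) (inv_ne_zero n3) (inv_ne_zero n4)
    (ip q (g q 5) (g q 2)) (ip q (g q 5) (g q 3))
    (ip q (g q 6) (g q 3)) (ip q (g q 6) (g q 4))
    (ip q (g q 8) (g q 2)) (ip q (g q 8) (g q 3))
    (ip q (g q 7) (g q 3)) (ip q (g q 7) (g q 4))
    (ip q (g q 9) (g q 2)) (ip q (g q 9) (g q 3)) (ip q (g q 9) (g q 4))
    (ip q (g q 10) (g q 2)) (ip q (g q 10) (g q 4))
    (ip q (g q 11) (g q 2)) (ip q (g q 11) (g q 3)) (ip q (g q 11) (g q 4))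
    (ip q (g q 12) (g q 2)) (ip q (g q 12) (g q 4))
    (ip q (g q 13) (g q 2)) (ip q (g q 13) (g q 3)) (ip q (g q 13) (g q 4))
    (ip q (g q 14) (g q 2)) (ip q (g q 14) (g q 3)) (ip q (g q 14) (g q 4))
    (n 5 2 (by decide)) (n 5 3 (by decide)) (n 6 3 (by decide)) (n 6 4 (by decide))
    (n 8 2 (by decide)) (n 7 3 (by decide)) (n 9 2 (by decide)) (n 10 2 (by decide))
    (n 11 2 (by decide)) (n 12 2 (by decide)) (n 13 2 (by decide)) (n 14 2 (by decide))
    (by have := E 5 8 (by decide); rw [c54] at this; linear_combination this)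
    (by have := E 6 7 (by decide); rw [c62] at this; linear_combination this)
    (by have := E 5 9 (by decide); rw [c54] at this; linear_combination this)
    (by have := E 6 9 (by decide); rw [c62] at this; linear_combination this)
    (by have := E 9 10 (by decide); rw [c103] at this; linear_combination this)
    (by have := E 5 11 (by decide); rw [c54] at this; linear_combination this)
    (by have := E 7 11 (by decide); rw [c72] at this; linear_combination this)
    (by have := E 11 12 (by decide); rw [c123] at this; linear_combination this)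
    (by have := E 8 13 (by decide); rw [c84] at this; linear_combination this)
    (by have := E 10 13 (by decide); rw [c103] at this; linear_combination this)
    (by have := E 8 14 (by decide); rw [c84] at this; linear_combination this)
    (by have := E 12 14 (by decide); rw [c123] at this; linear_combination this)
    (by have := E 13 14 (by decide); linear_combination this)
  have hS : ∀ (φ : St → Prop) [DecidablePred φ], S q φ ∈ Subfield.closure (Set.range q) := by
    intro φ _
    exact sum_mem fun x _ => Subfield.subset_closure (Set.mem_range_self x)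
  have hg : ∀ i z, g q i z ∈ Subfield.closure (Set.range q) := fun i z =>
    sub_mem (div_mem (hS _) (hS _)) (div_mem (hS _) (hS _))
  have hip : ∀ i j, ip q (g q i) (g q j) ∈ Subfield.closure (Set.range q) := fun i j =>
    sum_mem fun z _ => mul_mem (mul_mem (hS _) (hg i z)) (hg j z)
  refine ⟨_, ?_, key⟩
  exact div_mem (mul_mem (inv_mem (hip _ _)) (pow_mem (hip _ _) 2))
    (mul_mem (inv_mem (hip _ _)) (pow_mem (hip _ _) 2))

/-! ## The table -/

/-- golden ratio minus one -/
noncomputable def sg : ℝ := (Real.sqrt 5 - 1) / 2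

lemma sg_sq : sg ^ 2 = 1 - sg := by
  unfold sg
  have h5 : Real.sqrt 5 ^ 2 = 5 := Real.sq_sqrt (by norm_num)
  linear_combination h5 / 4

lemma sg_lb : 1 / 2 < sg := by
  unfold sg
  have : (2 : ℝ) < Real.sqrt 5 := by
    rw [Real.lt_sqrt (by norm_num)]; norm_num
  linarith

lemma sg_ub : sg < 7 / 10 := by
  unfold sg
  have : Real.sqrt 5 < (2.4 : ℝ) := by
    rw [Real.sqrt_lt' (by norm_num)]; norm_num
  linarith

/-- weights of the four cells -/
noncomputable def w : Fin 4 → ℝ := ![sg / 2, sg / 2, (1 - sg) / 2, (1 - sg) / 2]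

/-- coordinates of the fifteen functions -/
noncomputable def cf : Fin 15 → Fin 3 → ℝ :=
  ![![0, 0, 0], ![0, 0, 0], ![1, 0, 0], ![0, 1, 0], ![0, 0, 1], ![1, 1, 0], ![0, 1, 1],
    ![0, sg, -1], ![1, -(1 + sg), 0], ![sg, -1, 1 + sg], ![1, 0, -1],
    ![1, -(1 + sg), -(1 + sg)], ![sg, 0, 1], ![sg, sg, 1 + sg], ![1, 1, -(1 + sg)]]

/-- first basis function -/
def b0 : Fin 4 → ℝ := ![1, -1, 0, 0]

/-- second basis function -/
def b1 : Fin 4 → ℝ := ![0, 0, 1, -1]

/-- third basis function -/
noncomputable def b2 : Fin 4 → ℝ := ![1 - sg, 1 - sg, -sg, -sg]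

/-- the fifteen functions on the four cells -/
noncomputable def f (k : Fin 15) (z : Fin 4) : ℝ :=
  cf k 0 * b0 z + cf k 1 * b1 z + cf k 2 * b2 z

lemma cf_bound (k : Fin 15) (a : Fin 3) : |cf k a| ≤ 2 := by
  have h1 := sg_lb
  have h2 := sg_ub
  have e : ∀ t : ℝ, -2 ≤ t → t ≤ 2 → |t| ≤ 2 := fun t h h' => abs_le.mpr ⟨h, h'⟩
  fin_cases k <;> fin_cases a <;> apply e <;>
    simp only [cf, Fin.mk_zero, Fin.mk_one, Fin.reduceFinMk, Matrix.cons_val_zero,
      Matrix.cons_val_one, Matrix.cons_val] <;> linarith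

lemma f_bound (k : Fin 15) (z : Fin 4) : |f k z| ≤ 6 := by
  have h1 := sg_lb
  have h2 := sg_ub
  have hb0 : |b0 z| ≤ 1 := by fin_cases z <;> simp [b0]
  have hb1 : |b1 z| ≤ 1 := by fin_cases z <;> simp [b1]
  have hb2 : |b2 z| ≤ 1 := by
    fin_cases z <;> simp [b2, abs_le] <;> constructor <;> linarith
  have e : ∀ x y : ℝ, |x| ≤ 2 → |y| ≤ 1 → |x * y| ≤ 2 := by
    intro x y hx hy
    rw [abs_mul]
    calc |x| * |y| ≤ 2 * 1 := mul_le_mul hx hy (abs_nonneg _) (by norm_num)
      _ = 2 := by norm_num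
  unfold f
  calc |cf k 0 * b0 z + cf k 1 * b1 z + cf k 2 * b2 z|
      ≤ |cf k 0 * b0 z| + |cf k 1 * b1 z| + |cf k 2 * b2 z| := abs_add_three _ _ _
    _ ≤ 2 + 2 + 2 := add_le_add (add_le_add (e _ _ (cf_bound k 0) hb0)
        (e _ _ (cf_bound k 1) hb1)) (e _ _ (cf_bound k 2) hb2)
    _ = 6 := by norm_num

lemma w_sum : ∑ z, w z = 1 := by
  rw [Fin.sum_univ_four]; simp [w]; ring

lemma w_pos (z : Fin 4) : 0 < w z := by
  have h1 := sg_lb
  have h2 := sg_ub
  fin_cases z <;> simp [w] <;> linarith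

lemma wf_sum (k : Fin 15) : ∑ z, w z * f k z = 0 := by
  rw [Fin.sum_univ_four]
  unfold f
  simp [w, b0, b1, b2]
  ring

lemma wff_sum (k l : Fin 15) : ∑ z, w z * f k z * f l z =
    sg * (cf k 0 * cf l 0) + (1 - sg) * (cf k 1 * cf l 1) +
      sg * (1 - sg) * (cf k 2 * cf l 2) := by
  rw [Fin.sum_univ_four]
  unfold f
  simp [w, b0, b1, b2]
  ring

/-- local factors of the table -/
noncomputable def G (z : Fin 4) (k : Fin 15) (v : Fin 2) : ℝ :=
  if k = 0 then (if v = z1 z then 1 else 0) else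
  if k = 1 then (if v = z2 z then 1 else 0) else
  if v = 1 then 1 / 2 + f k z / 20 else 1 / 2 - f k z / 20

lemma G_sum (z : Fin 4) (k : Fin 15) : ∑ v, G z k v = 1 := by
  rw [Fin.sum_univ_two]
  unfold G
  by_cases h0 : k = 0
  · subst h0
    fin_cases z <;> simp [z1]
  · by_cases h1 : k = 1
    · subst h1
      fin_cases z <;> simp [z2]
    · simp [h0, h1]
      ring

lemma G_nonneg (z : Fin 4) (k : Fin 15) (v : Fin 2) : 0 ≤ G z k v := by
  have := abs_le.mp (f_bound k z)
  unfold G
  split_ifs <;> linarith [this.1, this.2]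

/-- the table -/
noncomputable def P : Table D := fun x => ∑ z, w z * ∏ k, G z k (x k)

lemma P_pos (x : St) : 0 < P x := by
  unfold P
  have hz : ∃ z : Fin 4, z1 z = x 0 ∧ z2 z = x 1 := by
    have : ∀ a b : Fin 2, ∃ z : Fin 4, z1 z = a ∧ z2 z = b := by decide
    exact this _ _
  obtain ⟨z, hz1, hz2⟩ := hz
  refine Finset.sum_pos' (fun z _ => ?_) ⟨z, Finset.mem_univ z, ?_⟩
  · exact mul_nonneg (w_pos z).le (Finset.prod_nonneg fun k _ => G_nonneg z k _)
  · refine mul_pos (w_pos z) (Finset.prod_pos fun k _ => ?_)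
    have := abs_le.mp (f_bound k z)
    unfold G
    split_ifs with h1 h2 h3 h4
    · norm_num
    · subst h1; exact absurd hz1.symm h2
    · norm_num
    · subst h3; exact absurd hz2.symm h4
    · linarith [this.1, this.2]
    · linarith [this.1, this.2]

lemma marginal_P (A : Finset (Fin 15)) (x : St) :
    marginal P A x = ∑ z, w z * ∏ k ∈ A, G z k (x k) := by
  unfold marginal P
  rw [Finset.sum_comm]
  refine Finset.sum_congr rfl fun z _ => ?_
  rw [← Finset.mul_sum]
  congr 1
  have h1 : ∑ y : State D with (∀ k ∈ A, y k = x k), ∏ k, G z k (y k) =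
      ∑ y : State D, ∏ k, (if k ∈ A → y k = x k then G z k (y k) else 0) := by
    rw [Finset.sum_filter]
    refine Finset.sum_congr rfl fun y _ => ?_
    split_ifs with h
    · refine Finset.prod_congr rfl fun k _ => ?_
      rw [if_pos (h k)]
    · push Not at h
      obtain ⟨k, hk, hk2⟩ := h
      symm
      refine Finset.prod_eq_zero (Finset.mem_univ k) ?_
      rw [if_neg]
      push Not
      exact ⟨hk, hk2⟩
  have h2 : ∑ y : State D, ∏ k, (if k ∈ A → y k = x k then G z k (y k) else 0) =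
      ∏ k, ∑ v : Fin 2, (if k ∈ A → v = x k then G z k v else 0) := by
    have := Finset.prod_univ_sum (fun _ : Fin 15 => (Finset.univ : Finset (Fin 2)))
      (fun k v => if k ∈ A → v = x k then G z k v else 0)
    rw [Fintype.piFinset_univ] at this
    exact this.symm
  rw [h1, h2, ← Finset.prod_filter_mul_prod_filter_not Finset.univ (fun k => k ∈ A)]
  have h3 : ∏ k with ¬ k ∈ A, ∑ v : Fin 2, (if k ∈ A → v = x k then G z k v else 0) = 1 := by
    refine Finset.prod_eq_one fun k hk => ?_
    have hk' : k ∉ A := (Finset.mem_filter.mp hk).2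
    rw [← G_sum z k]
    refine Finset.sum_congr rfl fun v _ => ?_
    rw [if_pos]
    intro h; exact absurd h hk'
  rw [h3, mul_one]
  have h4 : (Finset.univ.filter fun k => k ∈ A) = A := by ext k; simp
  rw [h4]
  refine Finset.prod_congr rfl fun k hk => ?_
  simp only [hk, true_imp_iff]
  simp

lemma P_cond (i j : Fin 15) (hij : i ≠ j) (hi0 : i ≠ 0) (hi1 : i ≠ 1) (hj0 : j ≠ 0)
    (hj1 : j ≠ 1) : Holds P (s1 i j hij hi0 hi1 hj0 hj1) := by
  have key : ∀ t : St, ∃ z : Fin 4, (z1 z = t 0 ∧ z2 z = t 1) ∧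
      marginal P (insert i (insert j {0, 1})) t = w z * (G z i (t i) * G z j (t j)) := by
    intro t
    have hz : ∀ a b : Fin 2, ∃ z : Fin 4, (z1 z = a ∧ z2 z = b) ∧
        ∀ z', z' ≠ z → z1 z' ≠ a ∨ z2 z' ≠ b := by decide
    obtain ⟨z, hz, hu⟩ := hz (t 0) (t 1)
    refine ⟨z, hz, ?_⟩
    rw [marginal_P]
    have hp : ∀ z, ∏ k ∈ insert i (insert j {0, 1}), G z k (t k) =
        G z i (t i) * (G z j (t j) * (G z 0 (t 0) * G z 1 (t 1))) := by
      intro z
      rw [Finset.prod_insert, Finset.prod_insert, Finset.prod_pair (by decide)]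
      · simp [hj0, hj1]
      · simp [hij, hi0, hi1]
    rw [Finset.sum_eq_single z]
    · rw [hp]
      have g0 : G z 0 (t 0) = 1 := by simp [G, hz.1]
      have g1 : G z 1 (t 1) = 1 := by simp [G, hz.2]
      rw [g0, g1]; ring
    · intro z' _ hz'
      rw [hp]
      rcases hu z' hz' with h | h
      · have g0 : G z' 0 (t 0) = 0 := by simp [G, h.symm]
        rw [g0]; ring
      · have g1 : G z' 1 (t 1) = 0 := by simp [G, h.symm]
        rw [g1]; ring
    · intro h; exact absurd (Finset.mem_univ z) h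
  intro x y hxy
  have hx0 : x 0 = y 0 := hxy 0 (by simp [s1])
  have hx1 : x 1 = y 1 := hxy 1 (by simp [s1])
  simp only [s1]
  have uniq : ∀ z z' : Fin 4, z1 z = z1 z' → z2 z = z2 z' → z = z' := by decide
  obtain ⟨za, ⟨ha1, ha2⟩, ha⟩ := key x
  obtain ⟨zb, ⟨hb1, hb2⟩, hb⟩ := key y
  obtain ⟨zc, ⟨hc1, hc2⟩, hc⟩ := key (Function.update x j (y j))
  obtain ⟨zd, ⟨hd1, hd2⟩, hd⟩ := key (Function.update y j (x j))
  rw [Function.update_of_ne hj0.symm] at hc1 hd1
  rw [Function.update_of_ne hj1.symm] at hc2 hd2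
  have e1 : zb = za := uniq _ _ (by rw [hb1, ha1, hx0]) (by rw [hb2, ha2, hx1])
  have e2 : zc = za := uniq _ _ (by rw [hc1, ha1]) (by rw [hc2, ha2])
  have e3 : zd = za := uniq _ _ (by rw [hd1, ha1, hx0]) (by rw [hd2, ha2, hx1])
  subst e1 e2 e3
  rw [ha, hb, hc, hd, Function.update_of_ne hij, Function.update_of_ne hij,
    Function.update_self, Function.update_self]
  ring

lemma P_marg (i j : Fin 15) (hij : i ≠ j) (hi0 : i ≠ 0) (hi1 : i ≠ 1) (hj0 : j ≠ 0)
    (hj1 : j ≠ 1) : Holds P (s0 i j hij) ↔ ∑ z, w z * f i z * f j z = 0 := by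
  have key : ∀ t : St, marginal P (insert i (insert j ∅)) t =
      ∑ z, w z * (G z i (t i) * G z j (t j)) := by
    intro t
    rw [marginal_P]
    refine Finset.sum_congr rfl fun z _ => ?_
    rw [Finset.prod_insert (by simp [hij]), Finset.prod_insert (by simp)]
    simp
  set c := ∑ z, w z * f i z * f j z with hc
  have hval : ∀ a b : ℝ, ∑ z, w z * ((1 / 2 + a * (f i z / 20)) * (1 / 2 + b * (f j z / 20)))
      = 1 / 4 + a * b * c / 400 := by
    intro a b
    have e : ∀ z, w z * ((1 / 2 + a * (f i z / 20)) * (1 / 2 + b * (f j z / 20))) =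
        1 / 4 * w z + a / 40 * (w z * f i z) + b / 40 * (w z * f j z) +
          a * b / 400 * (w z * f i z * f j z) := fun z => by ring
    simp only [e, Finset.sum_add_distrib, ← Finset.mul_sum]
    rw [w_sum, wf_sum, wf_sum, ← hc]
    ring
  have hG : ∀ (z : Fin 4) (k : Fin 15) (v : Fin 2), k ≠ 0 → k ≠ 1 →
      G z k v = 1 / 2 + (if v = 1 then (1 : ℝ) else -1) * (f k z / 20) := by
    intro z k v h0 h1
    unfold G
    rw [if_neg h0, if_neg h1]
    split_ifs <;> ring
  have key2 : ∀ t : St, marginal P (insert i (insert j ∅)) t =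
      1 / 4 + (if t i = 1 then (1 : ℝ) else -1) * (if t j = 1 then (1 : ℝ) else -1) * c / 400 := by
    intro t
    rw [key, ← hval]
    refine Finset.sum_congr rfl fun z _ => ?_
    rw [hG z i _ hi0 hi1, hG z j _ hj0 hj1]
  constructor
  · intro h
    have H := h (fun k => if k = i then 1 else if k = j then 1 else 0) (fun _ => 0)
      (by intro k hk; simp [s0] at hk)
    simp only [s0] at H
    rw [key2, key2, key2, key2, Function.update_of_ne hij, Function.update_of_ne hij,
      Function.update_self, Function.update_self] at H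
    simp only [if_true, if_neg hij.symm] at H
    norm_num at H
    linarith
  · intro h x y _
    simp only [s0]
    rw [key2, key2, key2, key2, h]
    ring

lemma P_orth : ∀ c ∈ orthPairs, ∑ z, w z * f c.1 z * f c.2 z = 0 := by
  intro c hc
  rw [wff_sum]
  have h := sg_sq
  simp only [orthPairs, List.mem_cons, List.not_mem_nil, or_false] at hc
  rcases hc with rfl | rfl | rfl | rfl | rfl | rfl | rfl | rfl | rfl | rfl | rfl | rfl | rfl |
    rfl | rfl | rfl | rfl | rfl | rfl | rfl | rfl | rfl <;>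
    simp only [cf, Matrix.cons_val_zero, Matrix.cons_val_one, Matrix.cons_val] <;>
    first
      | ring1
      | linear_combination h
      | linear_combination sg * h
      | linear_combination (1 - sg) * h
      | linear_combination sg ^ 2 * h

lemma P_non : ∀ c ∈ nonPairs, ∑ z, w z * f c.1 z * f c.2 z ≠ 0 := by
  intro c hc
  rw [wff_sum]
  have h := sg_sq
  have h1 := sg_lb
  have h2 := sg_ub
  have h3 : 0 < sg := by linarith
  have h4 : 0 < 1 - sg := by linarith
  simp only [nonPairs, List.mem_cons, List.not_mem_nil, or_false] at hc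
  rcases hc with rfl | rfl | rfl | rfl | rfl | rfl | rfl | rfl | rfl | rfl | rfl | rfl <;>
    simp only [cf, Matrix.cons_val_zero, Matrix.cons_val_one, Matrix.cons_val] <;>
    apply ne_of_gt <;>
    nlinarith [mul_pos h3 h4, mul_pos h3 h3]

/-! ## Main theorem -/

/-- the set of all CI statements that hold for the table `P` -/
def SP : Set (CIStatement 15) := {s | Holds P s}

set_option maxRecDepth 100000 in
lemma pair_facts : ∀ c ∈ orthPairs ++ nonPairs,
    c.1 ≠ c.2 ∧ c.1 ≠ 0 ∧ c.1 ≠ 1 ∧ c.2 ≠ 0 ∧ c.2 ≠ 1 := by decide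

/-- Every table of the strict model generates a field containing the square root of 5. -/
lemma sqrt5_mem (p : Table D) (hp : p ∈ strictModel D SP) :
    Real.sqrt 5 ∈ Subfield.closure (Set.range p) := by
  obtain ⟨hpos, hS⟩ := hp
  have hS' : ∀ s, Holds P s ↔ Holds p s := hS
  have hcond : ∀ (i j : Fin 15), i ≠ j → i ≠ 0 → i ≠ 1 → j ≠ 0 → j ≠ 1 → ∀ z,
      C p (fun x => x i = 1 ∧ x j = 1) z * C p (fun _ => True) z =
      C p (fun x => x i = 1) z * C p (fun x => x j = 1) z := by
    intro i j hij hi0 hi1 hj0 hj1 z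
    exact cond_minor p i j hij hi0 hi1 hj0 hj1
      ((hS' _).mp (P_cond i j hij hi0 hi1 hj0 hj1)) z
  have hiff : ∀ (i j : Fin 15), i ≠ j → i ≠ 0 → i ≠ 1 → j ≠ 0 → j ≠ 1 →
      (ip p (g p i) (g p j) = 0 ↔ ∑ z, w z * f i z * f j z = 0) := by
    intro i j hij hi0 hi1 hj0 hj1
    rw [orth_iff p hpos i j hij (hcond i j hij hi0 hi1 hj0 hj1), ← hS' (s0 i j hij)]
    exact P_marg i j hij hi0 hi1 hj0 hj1
  obtain ⟨r, hr, hr2⟩ := forced p hpos
    (by
      intro c hc
      obtain ⟨h1, h2, h3, h4, h5⟩ := pair_facts c (List.mem_append_left _ hc)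
      exact (hiff c.1 c.2 h1 h2 h3 h4 h5).mpr (P_orth c hc))
    (by
      intro c hc
      obtain ⟨h1, h2, h3, h4, h5⟩ := pair_facts c (List.mem_append_right _ hc)
      exact fun h => P_non c hc ((hiff c.1 c.2 h1 h2 h3 h4 h5).mp h))
  have h5 : (2 * r - 1) ^ 2 = 5 := by linear_combination 4 * hr2
  have hmem : 2 * r - 1 ∈ Subfield.closure (Set.range p) :=
    sub_mem (mul_mem (ofNat_mem _ 2) hr) (one_mem _)
  have h6 : Real.sqrt 5 = |2 * r - 1| := by rw [← h5, Real.sqrt_sq_eq_abs]
  rw [h6]
  rcases abs_choice (2 * r - 1) with h | h <;> rw [h]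
  · exact hmem
  · exact neg_mem hmem

/-- **Negative answer to Matus's question.** There is a set `S` of CI statements for
fifteen binary random variables whose strict CI model is nonempty, but which has no
rational point; in fact the field generated by the entries of any table in the model
contains the square root of 5. -/
theorem result :
    ∃ (n : ℕ) (d : Fin n → ℕ) (S : Set (CIStatement n)),
      n = 15 ∧ (∀ k, d k = 2) ∧ (strictModel d S).Nonempty ∧
      (∀ p ∈ strictModel d S, Real.sqrt 5 ∈ Subfield.closure (Set.range p)) ∧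
      ¬ ∃ p ∈ strictModel d S, ∀ x, ∃ a : ℚ, p x = (a : ℝ) := by
  refine ⟨15, D, SP, rfl, fun _ => rfl, ⟨P, P_pos, fun s => Iff.rfl⟩, sqrt5_mem, ?_⟩
  rintro ⟨p, hp, hrat⟩
  have h1 := sqrt5_mem p hp
  have h2 : Subfield.closure (Set.range p) ≤ (algebraMap ℚ ℝ).fieldRange := by
    rw [Subfield.closure_le]
    rintro _ ⟨x, rfl⟩
    obtain ⟨a, ha⟩ := hrat x
    exact ⟨a, by rw [ha]; rfl⟩
  obtain ⟨a, ha⟩ := h2 h1
  have hirr : Irrational (Real.sqrt 5) := by
    have := Nat.Prime.irrational_sqrt (p := 5) (by norm_num)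
    exact_mod_cast this
  exact hirr ⟨a, ha⟩

end Pool.Agent.Results.MP_c213cb_ag.NoRationalPoint
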