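import Mathlib

set_option autoImplicit false

open Finset

namespace Pool.Agent.Results.MP_c213cb_ag.NoRationalTable

/-- The marginal of the table `P` on the coordinates in `T`, evaluated at the states `x k`, `k ∈ T`
(the sum of all entries `P z` whose coordinates in `T` agree with those of `x`). -/
def marg {n : ℕ} {d : Fin n → ℕ} {R : Type} [CommSemiring R]
    (P : ((k : Fin n) → Fin (d k)) → R) (T : Finset (Fin n)) (x : (k : Fin n) → Fin (d k)) : R :=
  ∑ z ∈ (Finset.univ : Finset ((k : Fin n) → Fin (d k))).filter (fun z => ∀ k ∈ T, z k = x k), P z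

/-- The CI statement `X_i ⊥ X_j | X_K` holds for the table `P`: all `2 × 2` determinants of the
slices of the `{i, j} ∪ K` marginal vanish.  Here `x = (a, b, c)` and `y = (a', b', c)` on
`(i, j, K)`, `Function.update x j (y j) = (a, b', c)` and `Function.update y j (x j) = (a', b, c)`. -/
def CI {n : ℕ} {d : Fin n → ℕ} {R : Type} [CommSemiring R]
    (P : ((k : Fin n) → Fin (d k)) → R) (i j : Fin n) (K : Finset (Fin n)) : Prop :=
  ∀ x y : (k : Fin n) → Fin (d k), (∀ k ∈ K, x k = y k) →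
    marg P (insert i (insert j K)) x * marg P (insert i (insert j K)) y =
      marg P (insert i (insert j K)) (Function.update x j (y j)) *
        marg P (insert i (insert j K)) (Function.update y j (x j))

section general

variable {n : ℕ} {R : Type} [CommSemiring R]

lemma marg_congr (P : (Fin n → Fin 2) → R) (T : Finset (Fin n)) (x y : Fin n → Fin 2)
    (h : ∀ k ∈ T, x k = y k) : marg (d := fun _ => 2) P T x = marg (d := fun _ => 2) P T y := by
  unfold marg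
  congr 1
  apply Finset.filter_congr
  intro z _
  constructor
  · intro hz k hk
    rw [hz k hk, h k hk]
  · intro hz k hk
    rw [hz k hk, h k hk]

lemma marg_insert (P : (Fin n → Fin 2) → R) (T : Finset (Fin n)) (x : Fin n → Fin 2)
    (k : Fin n) (hk : k ∉ T) :
    marg (d := fun _ => 2) P T x =
      ∑ a : Fin 2, marg (d := fun _ => 2) P (insert k T) (Function.update x k a) := by
  unfold marg
  rw [← Finset.sum_fiberwise _ (fun z : Fin n → Fin 2 => z k)]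
  apply Finset.sum_congr rfl
  intro a _
  rw [Finset.filter_filter]
  congr 1
  apply Finset.filter_congr
  intro z _
  constructor
  · rintro ⟨h1, h2⟩ l hl
    rcases Finset.mem_insert.1 hl with rfl | hl
    · simpa using h2
    · have : l ≠ k := fun e => hk (e ▸ hl)
      rw [Function.update_of_ne this]
      exact h1 l hl
  · intro h
    refine ⟨fun l hl => ?_, ?_⟩
    · have : l ≠ k := fun e => hk (e ▸ hl)
      have := h l (Finset.mem_insert_of_mem hl)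
      rwa [Function.update_of_ne (by assumption)] at this
    · have := h k (Finset.mem_insert_self _ _)
      simpa using this

lemma sum_prod_filter (g : Fin n → Fin 2 → R) (T : Finset (Fin n)) (x : Fin n → Fin 2) :
    ∑ z ∈ (Finset.univ : Finset (Fin n → Fin 2)).filter (fun z => ∀ k ∈ T, z k = x k),
      ∏ k, g k (z k) = ∏ k, (if k ∈ T then g k (x k) else ∑ a, g k a) := by
  rw [Finset.sum_filter]
  have h1 : ∀ z : Fin n → Fin 2, (if ∀ k ∈ T, z k = x k then ∏ k, g k (z k) else 0) =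
      ∏ k, (if k ∈ T → z k = x k then g k (z k) else 0) := by
    intro z
    by_cases h : ∀ k ∈ T, z k = x k
    · rw [if_pos h]
      apply Finset.prod_congr rfl
      intro k _
      rw [if_pos (h k)]
    · rw [if_neg h]
      push Not at h
      obtain ⟨k, hk, hne⟩ := h
      symm
      apply Finset.prod_eq_zero (Finset.mem_univ k)
      rw [if_neg]
      intro h'
      exact hne (h' hk)
  rw [Finset.sum_congr rfl (fun z _ => h1 z)]
  have h2 := Finset.prod_univ_sum (fun _ : Fin n => (Finset.univ : Finset (Fin 2)))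
    (fun k a => if k ∈ T → a = x k then g k a else 0)
  rw [Fintype.piFinset_univ] at h2
  rw [← h2]
  apply Finset.prod_congr rfl
  intro k _
  by_cases hk : k ∈ T
  · simp [hk]
  · simp [hk]

/-- two-dimensional marginal written through base assignments -/
def D2 (P : (Fin n → Fin 2) → R) (i j : Fin n) (a b : Fin 2) : R :=
  marg (d := fun _ => 2) P (insert i (insert j ∅))
    (Function.update (Function.update (fun _ => 0) j b) i a)

lemma marg_eq_D2 (P : (Fin n → Fin 2) → R) (i j : Fin n) (hij : i ≠ j) (x : Fin n → Fin 2) :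
    marg (d := fun _ => 2) P (insert i (insert j ∅)) x = D2 P i j (x i) (x j) := by
  unfold D2
  apply marg_congr
  intro k hk
  simp only [Finset.mem_insert, Finset.notMem_empty, or_false] at hk
  rcases hk with rfl | rfl
  · simp
  · rw [Function.update_of_ne hij.symm]; simp

lemma CI_empty_iff (P : (Fin n → Fin 2) → R) (i j : Fin n) (hij : i ≠ j) :
    CI (d := fun _ => 2) P i j ∅ ↔ D2 P i j 0 0 * D2 P i j 1 1 = D2 P i j 0 1 * D2 P i j 1 0 := by
  unfold CI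
  simp only [marg_eq_D2 P i j hij, Function.update_self, Function.update_of_ne hij]
  constructor
  · intro h
    have := h (fun _ => 0) (fun _ => 1) (by simp)
    simpa using this
  · intro h x y _
    have key : ∀ a a' b b' : Fin 2, D2 P i j a b * D2 P i j a' b' =
        D2 P i j a b' * D2 P i j a' b := by
      intro a a' b b'
      fin_cases a <;> fin_cases a' <;> fin_cases b <;> fin_cases b' <;> simp <;>
        first
          | exact h
          | exact h.symm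
          | (rw [mul_comm, h, mul_comm])
          | (rw [mul_comm, ← h, mul_comm])
          | exact mul_comm _ _
    exact key _ _ _ _

end general

/-! ### Tables satisfying `X_i ⊥ X_j | X_{0,1}` : the latent inner product space -/

section latent

variable (Q : (Fin 21 → Fin 2) → ℚ)

/-- base assignment -/
def base (c : Fin 2 × Fin 2) : Fin 21 → Fin 2 := fun k => if k = 0 then c.1 else if k = 1 then c.2 else 0

/-- weight of the latent state -/
def Wt (c : Fin 2 × Fin 2) : ℚ := marg (d := fun _ => 2) Q {0, 1} (base c)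

/-- marginal on `{i, 0, 1}` -/
def q1 (i : Fin 21) (a : Fin 2) (c : Fin 2 × Fin 2) : ℚ :=
  marg (d := fun _ => 2) Q (insert i {0, 1}) (Function.update (base c) i a)

/-- marginal on `{i, j, 0, 1}` -/
def q2 (i j : Fin 21) (a b : Fin 2) (c : Fin 2 × Fin 2) : ℚ :=
  marg (d := fun _ => 2) Q (insert i (insert j {0, 1}))
    (Function.update (Function.update (base c) j b) i a)

lemma Wt_eq (i : Fin 21) (hi : i ∉ ({0, 1} : Finset (Fin 21))) (c : Fin 2 × Fin 2) :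
    Wt Q c = ∑ a, q1 Q i a c := marg_insert Q _ _ i hi

lemma q1_eq_left (i j : Fin 21) (hi : i ∉ ({0, 1} : Finset (Fin 21)))
    (hij : i ≠ j) (b : Fin 2) (c : Fin 2 × Fin 2) :
    q1 Q j b c = ∑ a, q2 Q i j a b c := by
  refine marg_insert Q _ _ i ?_
  simp only [Finset.mem_insert, Finset.mem_singleton] at hi ⊢
  tauto

lemma q1_eq_right (i j : Fin 21) (hj : j ∉ ({0, 1} : Finset (Fin 21)))
    (hij : i ≠ j) (a : Fin 2) (c : Fin 2 × Fin 2) :
    q1 Q i a c = ∑ b, q2 Q i j a b c := by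
  have h := marg_insert Q (insert i {0, 1}) (Function.update (base c) i a) j (by
    simp only [Finset.mem_insert, Finset.mem_singleton] at hj ⊢
    tauto)
  unfold q1 q2
  rw [h]
  apply Finset.sum_congr rfl
  intro b _
  rw [Finset.insert_comm, Function.update_comm hij]

lemma Wt_pos (hQ : ∀ x, 0 < Q x) (c : Fin 2 × Fin 2) : 0 < Wt Q c := by
  unfold Wt marg
  apply Finset.sum_pos
  · intro x _; exact hQ x
  · exact ⟨base c, by simp⟩

lemma D2_eq_sum (i j : Fin 21) (hi : i ∉ ({0, 1} : Finset (Fin 21)))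
    (hj : j ∉ ({0, 1} : Finset (Fin 21))) (hij : i ≠ j) (a b : Fin 2) :
    D2 Q i j a b = ∑ c : Fin 2 × Fin 2, q2 Q i j a b c := by
  unfold D2 q2
  simp only [Finset.mem_insert, Finset.mem_singleton, not_or] at hi hj
  rw [marg_insert Q _ _ 0 (by simp; tauto), Fintype.sum_prod_type]
  apply Finset.sum_congr rfl
  intro c0 _
  rw [marg_insert Q _ _ 1 (by simp; tauto)]
  apply Finset.sum_congr rfl
  intro c1 _
  have hset : (insert 1 (insert 0 (insert i (insert j (∅ : Finset (Fin 21)))))) =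
      insert i (insert j {0, 1}) := by
    ext k; simp; tauto
  rw [hset]
  apply marg_congr
  intro k hk
  simp only [Finset.mem_insert, Finset.mem_singleton] at hk
  by_cases h1 : k = 1
  · subst h1
    simp [Function.update_of_ne (Ne.symm hi.2), Function.update_of_ne (Ne.symm hj.2), base]
  by_cases h0 : k = 0
  · subst h0
    simp [Function.update_of_ne (Ne.symm hi.1), Function.update_of_ne (Ne.symm hj.1), base]
  rw [Function.update_of_ne h1, Function.update_of_ne h0]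
  by_cases hki : k = i
  · subst hki; simp
  · rw [Function.update_of_ne hki, Function.update_of_ne hki]
    have hkj : k = j := by tauto
    subst hkj; simp

lemma q2_cross (i j : Fin 21) (hi : i ∉ ({0, 1} : Finset (Fin 21)))
    (hj : j ∉ ({0, 1} : Finset (Fin 21))) (hij : i ≠ j)
    (h : CI (d := fun _ => 2) Q i j {0, 1}) (a a' b b' : Fin 2) (c : Fin 2 × Fin 2) :
    q2 Q i j a b c * q2 Q i j a' b' c = q2 Q i j a b' c * q2 Q i j a' b c := by
  have := h (Function.update (Function.update (base c) j b) i a)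
    (Function.update (Function.update (base c) j b') i a') (by
      intro k hk
      have hki : k ≠ i := fun e => hi (e ▸ hk)
      have hkj : k ≠ j := fun e => hj (e ▸ hk)
      simp [Function.update_of_ne hki, Function.update_of_ne hkj])
  unfold q2
  rw [this]
  congr 2
  · rw [Function.update_of_ne hij.symm, Function.update_self]
    ext k
    by_cases hki : k = i
    · subst hki; simp [Function.update_of_ne hij]
    · by_cases hkj : k = j
      · subst hkj; simp [Function.update_of_ne hki]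
      · simp [Function.update_of_ne hki, Function.update_of_ne hkj]
  · rw [Function.update_of_ne hij.symm, Function.update_self]
    ext k
    by_cases hki : k = i
    · subst hki; simp [Function.update_of_ne hij]
    · by_cases hkj : k = j
      · subst hkj; simp [Function.update_of_ne hki]
      · simp [Function.update_of_ne hki, Function.update_of_ne hkj]

lemma q2_factor (i j : Fin 21) (hi : i ∉ ({0, 1} : Finset (Fin 21)))
    (hj : j ∉ ({0, 1} : Finset (Fin 21))) (hij : i ≠ j)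
    (h : CI (d := fun _ => 2) Q i j {0, 1}) (a b : Fin 2) (c : Fin 2 × Fin 2) :
    q2 Q i j a b c * Wt Q c = q1 Q i a c * q1 Q j b c := by
  rw [Wt_eq Q i hi c, q1_eq_left Q i j hi hij b c]
  simp only [q1_eq_right Q i j hj hij]
  simp only [Fin.sum_univ_two]
  have h1 := q2_cross Q i j hi hj hij h a 0 b 0 c
  have h2 := q2_cross Q i j hi hj hij h a 0 b 1 c
  have h3 := q2_cross Q i j hi hj hij h a 1 b 0 c
  have h4 := q2_cross Q i j hi hj hij h a 1 b 1 c
  linear_combination h1 + h2 + h3 + h4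

/-- total mass -/
def tot : ℚ := ∑ c, Wt Q c

/-- `∑_c q1 i 0 c` -/
def al (i : Fin 21) : ℚ := ∑ c, q1 Q i 0 c

/-- the (unnormalised) centred vector of the variable `i` -/
def cen (i : Fin 21) (c : Fin 2 × Fin 2) : ℚ := tot Q * q1 Q i 0 c - al Q i * Wt Q c

lemma cen_sum (i : Fin 21) : ∑ c, cen Q i c = 0 := by
  unfold cen
  rw [Finset.sum_sub_distrib, ← Finset.mul_sum, ← Finset.mul_sum]
  unfold al tot
  ring

lemma inner_iff (hQ : ∀ x, 0 < Q x) (i j : Fin 21) (hi : i ∉ ({0, 1} : Finset (Fin 21)))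
    (hj : j ∉ ({0, 1} : Finset (Fin 21))) (hij : i ≠ j)
    (h : CI (d := fun _ => 2) Q i j {0, 1}) :
    CI (d := fun _ => 2) Q i j ∅ ↔ ∑ c, cen Q i c * cen Q j c / Wt Q c = 0 := by
  rw [CI_empty_iff Q i j hij]
  have hW : ∀ c, Wt Q c ≠ 0 := fun c => (Wt_pos Q hQ c).ne'
  have hN : tot Q ≠ 0 := by
    have : 0 < tot Q := Finset.sum_pos (fun c _ => Wt_pos Q hQ c) ⟨(0, 0), by simp⟩
    exact this.ne'
  have hq2 : ∀ a b c, q2 Q i j a b c = q1 Q i a c * q1 Q j b c / Wt Q c := by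
    intro a b c
    rw [eq_div_iff (hW c)]
    exact q2_factor Q i j hi hj hij h a b c
  have hi1 : ∀ c, q1 Q i 1 c = Wt Q c - q1 Q i 0 c := by
    intro c
    rw [Wt_eq Q i hi c, Fin.sum_univ_two]; ring
  have hj1 : ∀ c, q1 Q j 1 c = Wt Q c - q1 Q j 0 c := by
    intro c
    rw [Wt_eq Q j hj c, Fin.sum_univ_two]; ring
  set S : ℚ := ∑ c, q1 Q i 0 c * q1 Q j 0 c / Wt Q c with hS
  have h00 : D2 Q i j 0 0 = S := by
    rw [D2_eq_sum Q i j hi hj hij, hS]
    exact Finset.sum_congr rfl (fun c _ => hq2 _ _ _)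
  have h01 : D2 Q i j 0 1 = al Q i - S := by
    rw [D2_eq_sum Q i j hi hj hij, hS]
    unfold al
    rw [← Finset.sum_sub_distrib]
    refine Finset.sum_congr rfl (fun c _ => ?_)
    rw [hq2, hj1]
    have := hW c
    field_simp
  have h10 : D2 Q i j 1 0 = al Q j - S := by
    rw [D2_eq_sum Q i j hi hj hij, hS]
    unfold al
    rw [← Finset.sum_sub_distrib]
    refine Finset.sum_congr rfl (fun c _ => ?_)
    rw [hq2, hi1]
    have := hW c
    field_simp
  have h11 : D2 Q i j 1 1 = tot Q - al Q i - al Q j + S := by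
    rw [D2_eq_sum Q i j hi hj hij, hS]
    unfold al tot
    rw [← Finset.sum_sub_distrib, ← Finset.sum_sub_distrib, ← Finset.sum_add_distrib]
    refine Finset.sum_congr rfl (fun c _ => ?_)
    rw [hq2, hi1, hj1]
    have := hW c
    field_simp
    ring
  have hB : ∑ c, cen Q i c * cen Q j c / Wt Q c = tot Q * (tot Q * S - al Q i * al Q j) := by
    have e1 : ∀ c, cen Q i c * cen Q j c / Wt Q c =
        tot Q ^ 2 * (q1 Q i 0 c * q1 Q j 0 c / Wt Q c) - tot Q * al Q j * q1 Q i 0 c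
          - tot Q * al Q i * q1 Q j 0 c + al Q i * al Q j * Wt Q c := by
      intro c
      unfold cen
      have := hW c
      field_simp
      ring
    rw [Finset.sum_congr rfl (fun c _ => e1 c), Finset.sum_add_distrib, Finset.sum_sub_distrib,
      Finset.sum_sub_distrib, ← Finset.mul_sum, ← Finset.mul_sum, ← Finset.mul_sum,
      ← Finset.mul_sum]
    have ei : ∑ c, q1 Q i 0 c = al Q i := rfl
    have ej : ∑ c, q1 Q j 0 c = al Q j := rfl
    have et : ∑ c, Wt Q c = tot Q := rfl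
    rw [ei, ej, et, ← hS]
    ring
  rw [hB, h00, h01, h10, h11]
  constructor
  · intro e
    have : tot Q * S - al Q i * al Q j = 0 := by linear_combination e
    rw [this, mul_zero]
  · intro e
    rcases mul_eq_zero.1 e with e | e
    · exact absurd e hN
    · linear_combination e

/-- point coordinates -/
def pt (i : Fin 21) : Fin 3 → ℚ := ![cen Q i (0, 0), cen Q i (0, 1), cen Q i (1, 0)]

/-- line coordinates -/
def ln (j : Fin 21) : Fin 3 → ℚ :=
  ![cen Q j (0, 0) / Wt Q (0, 0) - cen Q j (1, 1) / Wt Q (1, 1),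
    cen Q j (0, 1) / Wt Q (0, 1) - cen Q j (1, 1) / Wt Q (1, 1),
    cen Q j (1, 0) / Wt Q (1, 0) - cen Q j (1, 1) / Wt Q (1, 1)]

lemma pt_ln_aux (u v W : Fin 2 × Fin 2 → ℚ) (h : ∑ c, u c = 0) :
    (![u (0, 0), u (0, 1), u (1, 0)] : Fin 3 → ℚ) ⬝ᵥ
      ![v (0, 0) / W (0, 0) - v (1, 1) / W (1, 1), v (0, 1) / W (0, 1) - v (1, 1) / W (1, 1),
        v (1, 0) / W (1, 0) - v (1, 1) / W (1, 1)] = ∑ c, u c * v c / W c := by
  rw [Fintype.sum_prod_type] at h ⊢
  simp only [Fin.sum_univ_two] at h ⊢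
  simp only [dotProduct, Fin.sum_univ_three, Matrix.cons_val_zero, Matrix.cons_val_one,
    Matrix.cons_val]
  have e : u (1, 1) = - (u (0, 0) + u (0, 1) + u (1, 0)) := by
    linear_combination h
  rw [e]
  ring

lemma pt_ln (i j : Fin 21) :
    pt Q i ⬝ᵥ ln Q j = ∑ c, cen Q i c * cen Q j c / Wt Q c :=
  pt_ln_aux (cen Q i) (cen Q j) (Wt Q) (cen_sum Q i)

end latent

/-! ### The real table -/

section real

/-- sign -/
def sg (a : Fin 2) : ℝ := if a = 0 then 1 else -1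

/-- golden ratio minus one -/
noncomputable def tt : ℝ := (Real.sqrt 5 - 1) / 2

lemma tt_sq : tt ^ 2 + tt = 1 := by
  have h : Real.sqrt 5 ^ 2 = 5 := Real.sq_sqrt (by norm_num)
  unfold tt
  linear_combination h / 4

lemma tt_pos : 0 < tt := by
  have : (1:ℝ) < Real.sqrt 5 := by
    rw [Real.lt_sqrt (by norm_num)]; norm_num
  unfold tt; linarith

lemma tt_lt : tt < 1 := by
  have := tt_sq
  nlinarith [tt_pos]

/-- the vectors: indices 2..10 are the points `A B C D E F Q R S`, indices 11..20 the lines -/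
noncomputable def vec : Fin 21 → Fin 3 → ℝ :=
  ![![0, 0, 0], ![0, 0, 0],
    ![1, 0, 0], ![0, 1, 0], ![0, 0, 1], ![1, 1, 1], ![0, 1, 1], ![1, 1, 0], ![1, 1, tt],
    ![1, 1 + tt, 1], ![1, 1 + tt, tt],
    ![1, 0, 0], ![0, 1, 0], ![0, 0, 1], ![0, 1, -1], ![1, 0, -1], ![1, -1, 0], ![0, tt, -1],
    ![tt, 0, -1], ![1 + tt, -1, 0], ![1, -1, 1]]

/-- centred functions on the four latent states -/
noncomputable def w (k : Fin 21) (c : Fin 2 × Fin 2) : ℝ :=
  vec k 0 * sg c.1 + vec k 1 * sg c.2 + vec k 2 * (sg c.1 * sg c.2)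

/-- factors -/
noncomputable def G (c : Fin 2 × Fin 2) (k : Fin 21) (a : Fin 2) : ℝ :=
  if k = 0 then (if a = c.1 then 1 / 2 else 0)
  else if k = 1 then (if a = c.2 then 1 / 2 else 0)
  else 1 / 2 + 1 / 100 * sg a * w k c

/-- the real table -/
noncomputable def P (x : Fin 21 → Fin 2) : ℝ := ∑ c : Fin 2 × Fin 2, ∏ k, G c k (x k)

lemma vec_bound (k : Fin 21) (l : Fin 3) : |vec k l| ≤ 2 := by
  have h1 := tt_pos
  have h2 := tt_lt
  rw [abs_le]
  fin_cases k <;> fin_cases l <;> simp [vec] <;> first | constructor <;> linarith | linarith | norm_num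

lemma sg_abs (a : Fin 2) : |sg a| = 1 := by
  unfold sg; split_ifs <;> simp

lemma w_bound (k : Fin 21) (c : Fin 2 × Fin 2) : |w k c| ≤ 6 := by
  unfold w
  have h0 : |vec k 0 * sg c.1| ≤ 2 := by rw [abs_mul, sg_abs, mul_one]; exact vec_bound k 0
  have h1 : |vec k 1 * sg c.2| ≤ 2 := by rw [abs_mul, sg_abs, mul_one]; exact vec_bound k 1
  have h2 : |vec k 2 * (sg c.1 * sg c.2)| ≤ 2 := by
    rw [abs_mul, abs_mul, sg_abs, sg_abs, mul_one, mul_one]; exact vec_bound k 2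
  rw [abs_le] at *
  constructor <;> linarith [h0.1, h0.2, h1.1, h1.2, h2.1, h2.2]

lemma G_pos (c : Fin 2 × Fin 2) (k : Fin 21) (a : Fin 2) (h0 : k ≠ 0) (h1 : k ≠ 1) :
    0 < G c k a := by
  unfold G
  rw [if_neg h0, if_neg h1]
  have h : |sg a * w k c| ≤ 6 := by rw [abs_mul, sg_abs, one_mul]; exact w_bound k c
  rw [abs_le] at h
  nlinarith [h.1]

lemma G_nonneg (c : Fin 2 × Fin 2) (k : Fin 21) (a : Fin 2) : 0 ≤ G c k a := by
  by_cases h0 : k = 0
  · unfold G; rw [if_pos h0]; split_ifs <;> norm_num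
  by_cases h1 : k = 1
  · unfold G; rw [if_neg h0, if_pos h1]; split_ifs <;> norm_num
  exact (G_pos c k a h0 h1).le

lemma P_pos (x : Fin 21 → Fin 2) : 0 < P x := by
  unfold P
  apply Finset.sum_pos'
  · intro c _
    exact Finset.prod_nonneg (fun k _ => G_nonneg c k _)
  · refine ⟨(x 0, x 1), Finset.mem_univ _, Finset.prod_pos ?_⟩
    intro k _
    by_cases h0 : k = 0
    · subst h0; simp [G]
    by_cases h1 : k = 1
    · subst h1; simp [G]
    exact G_pos _ k _ h0 h1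

lemma sum_G (c : Fin 2 × Fin 2) (k : Fin 21) :
    ∑ a, G c k a = if k = 0 ∨ k = 1 then 1 / 2 else 1 := by
  by_cases h0 : k = 0
  · subst h0; simp [G]
  by_cases h1 : k = 1
  · subst h1; simp [G]
  simp only [h0, h1, or_self, if_false, G, Fin.sum_univ_two, sg]
  norm_num
  ring

lemma marg_P (T : Finset (Fin 21)) (x : Fin 21 → Fin 2) :
    marg (d := fun _ => 2) P T x = ∑ c : Fin 2 × Fin 2,
      ∏ k, (if k ∈ T then G c k (x k) else if k = 0 ∨ k = 1 then 1 / 2 else 1) := by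
  unfold marg P
  rw [Finset.sum_comm]
  apply Finset.sum_congr rfl
  intro c _
  rw [sum_prod_filter (G c) T x]
  apply Finset.prod_congr rfl
  intro k _
  rw [sum_G]

lemma prod_four (φ : Fin 21 → ℝ) (i j : Fin 21) (hi : i ∉ ({0, 1} : Finset (Fin 21)))
    (hj : j ∉ ({0, 1} : Finset (Fin 21))) (hij : i ≠ j)
    (h : ∀ k, k ≠ i → k ≠ j → k ≠ 0 → k ≠ 1 → φ k = 1) :
    ∏ k, φ k = φ i * (φ j * (φ 0 * φ 1)) := by
  rw [← Finset.prod_subset (Finset.subset_univ (insert i (insert j {0, 1})))]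
  · simp only [Finset.mem_insert, Finset.mem_singleton, not_or] at hi hj
    rw [Finset.prod_insert, Finset.prod_insert, Finset.prod_insert, Finset.prod_singleton]
    · simp
    · simp; tauto
    · simp; tauto
  · intro k _ hk
    simp only [Finset.mem_insert, Finset.mem_singleton, not_or] at hk
    exact h k hk.1 hk.2.1 hk.2.2.1 hk.2.2.2

lemma marg_P_two (i j : Fin 21) (hi : i ∉ ({0, 1} : Finset (Fin 21)))
    (hj : j ∉ ({0, 1} : Finset (Fin 21))) (hij : i ≠ j) (a b : Fin 2) :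
    D2 P i j a b = 1 / 4 * (1 + 4 * (1 / 50) ^ 2 * (sg a * sg b) *
      (vec i ⬝ᵥ vec j) / 4) := by
  have hi' := hi
  have hj' := hj
  simp only [Finset.mem_insert, Finset.mem_singleton, not_or] at hi' hj'
  unfold D2
  rw [marg_P]
  have : ∀ c : Fin 2 × Fin 2,
      ∏ k, (if k ∈ (insert i (insert j (∅ : Finset (Fin 21)))) then
        G c k ((Function.update (Function.update (fun _ => (0 : Fin 2)) j b) i a) k)
        else if k = 0 ∨ k = 1 then (1 / 2 : ℝ) else 1) =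
      (1 / 2 + 1 / 100 * sg a * w i c) * ((1 / 2 + 1 / 100 * sg b * w j c) * (1 / 2 * (1 / 2))) := by
    intro c
    rw [prod_four _ i j hi hj hij]
    · have e0 : (0 : Fin 21) ∉ (insert i (insert j (∅ : Finset (Fin 21)))) := by simp; tauto
      have e1 : (1 : Fin 21) ∉ (insert i (insert j (∅ : Finset (Fin 21)))) := by simp; tauto
      rw [if_neg e0, if_neg e1, if_pos (by simp), if_pos (by simp), if_pos (by simp),
        if_pos (by simp)]
      rw [Function.update_self, Function.update_of_ne hij.symm, Function.update_self]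
      unfold G
      rw [if_neg hi'.1, if_neg hi'.2, if_neg hj'.1, if_neg hj'.2]
    · intro k h1 h2 h3 h4
      rw [if_neg (by simp; tauto), if_neg (by tauto)]
  rw [Finset.sum_congr rfl (fun c _ => this c), Fintype.sum_prod_type]
  have s0 : sg 0 = 1 := by simp [sg]
  have s1 : sg 1 = -1 := by simp [sg]
  generalize sg a = sa
  generalize sg b = sb
  simp only [Fin.sum_univ_two, w, dotProduct, Fin.sum_univ_three, s0, s1]
  ring

lemma CI_P_empty (i j : Fin 21) (hi : i ∉ ({0, 1} : Finset (Fin 21)))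
    (hj : j ∉ ({0, 1} : Finset (Fin 21))) (hij : i ≠ j) :
    CI (d := fun _ => 2) P i j ∅ ↔ vec i ⬝ᵥ vec j = 0 := by
  rw [CI_empty_iff P i j hij]
  simp only [marg_P_two i j hi hj hij]
  simp only [sg]
  norm_num
  constructor
  · intro h
    linarith
  · intro h
    rw [h]
    norm_num

lemma CI_P_latent (i j : Fin 21) (hi : i ∉ ({0, 1} : Finset (Fin 21)))
    (hj : j ∉ ({0, 1} : Finset (Fin 21))) (hij : i ≠ j) :
    CI (d := fun _ => 2) P i j {0, 1} := by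
  have hi' := hi
  have hj' := hj
  simp only [Finset.mem_insert, Finset.mem_singleton, not_or] at hi' hj'
  have key : ∀ x : Fin 21 → Fin 2, marg (d := fun _ => 2) P (insert i (insert j {0, 1})) x =
      G (x 0, x 1) i (x i) * (G (x 0, x 1) j (x j) * (1 / 2 * (1 / 2))) := by
    intro x
    rw [marg_P]
    have : ∀ c : Fin 2 × Fin 2,
        ∏ k, (if k ∈ (insert i (insert j ({0, 1} : Finset (Fin 21)))) then G c k (x k)
          else if k = 0 ∨ k = 1 then (1 / 2 : ℝ) else 1) =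
        if c = (x 0, x 1) then
          G (x 0, x 1) i (x i) * (G (x 0, x 1) j (x j) * (1 / 2 * (1 / 2))) else 0 := by
      intro c
      rw [prod_four _ i j hi hj hij]
      · rw [if_pos (by simp), if_pos (by simp), if_pos (by simp), if_pos (by simp)]
        by_cases hc : c = (x 0, x 1)
        · rw [if_pos hc, hc]
          have e0 : G (x 0, x 1) 0 (x 0) = 1 / 2 := by simp [G]
          have e1 : G (x 0, x 1) 1 (x 1) = 1 / 2 := by simp [G]
          rw [e0, e1]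
        · rw [if_neg hc]
          have : x 0 ≠ c.1 ∨ x 1 ≠ c.2 := by
            by_contra hcon
            push Not at hcon
            exact hc (Prod.ext hcon.1.symm hcon.2.symm)
          rcases this with h | h
          · have : G c 0 (x 0) = 0 := by simp [G, h]
            rw [this]; ring
          · have : G c 1 (x 1) = 0 := by simp [G, h]
            rw [this]; ring
      · intro k h1 h2 h3 h4
        rw [if_neg (by simp; tauto), if_neg (by tauto)]
    rw [Finset.sum_congr rfl (fun c _ => this c)]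
    simp
  intro x y hxy
  have h0 : x 0 = y 0 := hxy 0 (by simp)
  have h1 : x 1 = y 1 := hxy 1 (by simp)
  rw [key, key, key, key]
  rw [Function.update_of_ne (Ne.symm hj'.1), Function.update_of_ne (Ne.symm hj'.2),
    Function.update_of_ne hij, Function.update_self,
    Function.update_of_ne (Ne.symm hj'.1), Function.update_of_ne (Ne.symm hj'.2),
    Function.update_of_ne hij, Function.update_self, h0, h1]
  ring

end real


/-! ### The rank three configuration and its non-realizability over ordered fields without `√5` -/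

section nonreal

variable {F : Type} [Field F]

lemma expand (A B C L0 L1 L2 : Fin 3 → F)
    (hA0 : A ⬝ᵥ L0 ≠ 0) (hB1 : B ⬝ᵥ L1 ≠ 0) (hC2 : C ⬝ᵥ L2 ≠ 0)
    (hA1 : A ⬝ᵥ L1 = 0) (hA2 : A ⬝ᵥ L2 = 0)
    (hB0 : B ⬝ᵥ L0 = 0) (hB2 : B ⬝ᵥ L2 = 0)
    (hC0 : C ⬝ᵥ L0 = 0) (hC1 : C ⬝ᵥ L1 = 0) (X M : Fin 3 → F) :
    X ⬝ᵥ M = (X ⬝ᵥ L0) / (A ⬝ᵥ L0) * (A ⬝ᵥ M) + (X ⬝ᵥ L1) / (B ⬝ᵥ L1) * (B ⬝ᵥ M) +
      (X ⬝ᵥ L2) / (C ⬝ᵥ L2) * (C ⬝ᵥ M) := by
  set N : Matrix (Fin 3) (Fin 3) F :=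
    Matrix.of ![(A ⬝ᵥ L0)⁻¹ • A, (B ⬝ᵥ L1)⁻¹ • B, (C ⬝ᵥ L2)⁻¹ • C] with hN
  set Mm : Matrix (Fin 3) (Fin 3) F := (Matrix.of ![L0, L1, L2]).transpose with hM
  have h1 : N * Mm = 1 := by
    ext i j
    fin_cases i <;> fin_cases j <;>
      simp [Matrix.mul_apply, hN, hM, Matrix.transpose_apply, mul_assoc, ← Finset.mul_sum] <;>
      simp only [dotProduct, Fin.sum_univ_three] at * <;>
      simp_all
  have h2 : Mm * N = 1 := mul_eq_one_comm.mp h1
  have h3 : X ⬝ᵥ M = X ⬝ᵥ ((Mm * N).mulVec M) := by rw [h2, Matrix.one_mulVec]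
  have h4 : Matrix.vecMul X Mm = ![X ⬝ᵥ L0, X ⬝ᵥ L1, X ⬝ᵥ L2] := by
    ext i
    fin_cases i <;> simp [Matrix.vecMul, hM, dotProduct, Fin.sum_univ_three]
  have h5 : N.mulVec M =
      ![(A ⬝ᵥ L0)⁻¹ * (A ⬝ᵥ M), (B ⬝ᵥ L1)⁻¹ * (B ⬝ᵥ M), (C ⬝ᵥ L2)⁻¹ * (C ⬝ᵥ M)] := by
    ext i
    fin_cases i <;> simp [Matrix.mulVec, hN, dotProduct, Finset.mul_sum, mul_assoc]
  rw [h3, ← Matrix.mulVec_mulVec, Matrix.dotProduct_mulVec, h4, h5]
  generalize (A ⬝ᵥ L0) = a
  generalize (B ⬝ᵥ L1) = b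
  generalize (C ⬝ᵥ L2) = c
  generalize (X ⬝ᵥ L0) = x0
  generalize (X ⬝ᵥ L1) = x1
  generalize (X ⬝ᵥ L2) = x2
  generalize (A ⬝ᵥ M) = m0
  generalize (B ⬝ᵥ M) = m1
  generalize (C ⬝ᵥ M) = m2
  simp [dotProduct, Fin.sum_univ_three, div_eq_mul_inv]
  ring

/-- From `u b + v c = 0`, `u b' + v c' = 0` with `(b, c) ≠ 0` ... -/
lemma cross {a b a' b' u v : F} (h1 : a * u + b * v = 0) (h2 : a' * u + b' * v = 0)
    (hu : u ≠ 0) : a * b' = a' * b := by
  have h3 : u * (a * b' - a' * b) = 0 := by linear_combination b' * h1 - b * h2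
  rcases mul_eq_zero.1 h3 with h | h
  · exact absurd h hu
  · exact sub_eq_zero.1 h

/-- The configuration of nine points `A, B, C, D, E, F, Q, R, S` and ten lines is not realizable in
the projective plane over a field in which `t ^ 2 + t = 1` has no solution. -/
lemma not_realizable (hF : ∀ t : F, t ^ 2 + t ≠ 1)
    (A B C D E G Q R S L0 L1 L2 L3 L4 L5 L6 L7 L8 L9 : Fin 3 → F)
    (hA0 : A ⬝ᵥ L0 ≠ 0) (hB1 : B ⬝ᵥ L1 ≠ 0) (hC2 : C ⬝ᵥ L2 ≠ 0)
    (hA1 : A ⬝ᵥ L1 = 0) (hA2 : A ⬝ᵥ L2 = 0)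
    (hB0 : B ⬝ᵥ L0 = 0) (hB2 : B ⬝ᵥ L2 = 0)
    (hC0 : C ⬝ᵥ L0 = 0) (hC1 : C ⬝ᵥ L1 = 0)
    (hD0 : D ⬝ᵥ L0 ≠ 0) (hD1 : D ⬝ᵥ L1 ≠ 0) (hD2 : D ⬝ᵥ L2 ≠ 0)
    (hE0 : E ⬝ᵥ L0 = 0) (hE1 : E ⬝ᵥ L1 ≠ 0) (hG2 : G ⬝ᵥ L2 = 0) (hG0 : G ⬝ᵥ L0 ≠ 0)
    (hQ0 : Q ⬝ᵥ L0 ≠ 0) (hQ2 : Q ⬝ᵥ L2 ≠ 0) (hR0 : R ⬝ᵥ L0 ≠ 0) (hS0 : S ⬝ᵥ L0 ≠ 0)
    (hA3 : A ⬝ᵥ L3 = 0) (hD3 : D ⬝ᵥ L3 = 0) (hE3 : E ⬝ᵥ L3 = 0) (hB3 : B ⬝ᵥ L3 ≠ 0)
    (hB4 : B ⬝ᵥ L4 = 0) (hD4 : D ⬝ᵥ L4 = 0) (hR4 : R ⬝ᵥ L4 = 0) (hA4 : A ⬝ᵥ L4 ≠ 0)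
    (hC5 : C ⬝ᵥ L5 = 0) (hD5 : D ⬝ᵥ L5 = 0) (hG5 : G ⬝ᵥ L5 = 0) (hQ5 : Q ⬝ᵥ L5 = 0)
    (hA5 : A ⬝ᵥ L5 ≠ 0)
    (hA6 : A ⬝ᵥ L6 = 0) (hQ6 : Q ⬝ᵥ L6 = 0) (hR6 : R ⬝ᵥ L6 = 0) (hB6 : B ⬝ᵥ L6 ≠ 0)
    (hB7 : B ⬝ᵥ L7 = 0) (hQ7 : Q ⬝ᵥ L7 = 0) (hS7 : S ⬝ᵥ L7 = 0) (hA7 : A ⬝ᵥ L7 ≠ 0)
    (hC8 : C ⬝ᵥ L8 = 0) (hR8 : R ⬝ᵥ L8 = 0) (hS8 : S ⬝ᵥ L8 = 0) (hA8 : A ⬝ᵥ L8 ≠ 0)
    (hE9 : E ⬝ᵥ L9 = 0) (hG9 : G ⬝ᵥ L9 = 0) (hS9 : S ⬝ᵥ L9 = 0) (hA9 : A ⬝ᵥ L9 ≠ 0) : False := by
  have ex := expand A B C L0 L1 L2 hA0 hB1 hC2 hA1 hA2 hB0 hB2 hC0 hC1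
  -- normalised coordinates
  set a := A ⬝ᵥ L0
  set b := B ⬝ᵥ L1
  set c := C ⬝ᵥ L2
  have d0 : D ⬝ᵥ L0 / a ≠ 0 := div_ne_zero hD0 hA0
  have d1 : D ⬝ᵥ L1 / b ≠ 0 := div_ne_zero hD1 hB1
  have d2 : D ⬝ᵥ L2 / c ≠ 0 := div_ne_zero hD2 hC2
  have e1 : E ⬝ᵥ L1 / b ≠ 0 := div_ne_zero hE1 hB1
  have g0 : G ⬝ᵥ L0 / a ≠ 0 := div_ne_zero hG0 hA0
  have q0 : Q ⬝ᵥ L0 / a ≠ 0 := div_ne_zero hQ0 hA0
  have q2 : Q ⬝ᵥ L2 / c ≠ 0 := div_ne_zero hQ2 hC2
  have r0 : R ⬝ᵥ L0 / a ≠ 0 := div_ne_zero hR0 hA0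
  have s0 : S ⬝ᵥ L0 / a ≠ 0 := div_ne_zero hS0 hA0
  have c3 : (D ⬝ᵥ L1 / b) * (E ⬝ᵥ L2 / c) = (E ⬝ᵥ L1 / b) * (D ⬝ᵥ L2 / c) := by
    have x1 := ex D L3
    have x2 := ex E L3
    rw [hA3, hD3] at x1
    rw [hA3, hE3] at x2
    exact cross (u := B ⬝ᵥ L3) (v := C ⬝ᵥ L3) (by linear_combination -x1) (by linear_combination -x2) hB3
  have c4 : (D ⬝ᵥ L0 / a) * (R ⬝ᵥ L2 / c) = (R ⬝ᵥ L0 / a) * (D ⬝ᵥ L2 / c) := by
    have x1 := ex D L4
    have x2 := ex R L4
    rw [hB4, hD4] at x1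
    rw [hB4, hR4] at x2
    exact cross (u := A ⬝ᵥ L4) (v := C ⬝ᵥ L4) (by linear_combination -x1) (by linear_combination -x2) hA4
  have c5 : (D ⬝ᵥ L0 / a) * (G ⬝ᵥ L1 / b) = (G ⬝ᵥ L0 / a) * (D ⬝ᵥ L1 / b) := by
    have x1 := ex D L5
    have x2 := ex G L5
    rw [hC5, hD5] at x1
    rw [hC5, hG5] at x2
    exact cross (u := A ⬝ᵥ L5) (v := B ⬝ᵥ L5) (by linear_combination -x1) (by linear_combination -x2) hA5
  have c5' : (D ⬝ᵥ L0 / a) * (Q ⬝ᵥ L1 / b) = (Q ⬝ᵥ L0 / a) * (D ⬝ᵥ L1 / b) := by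
    have x1 := ex D L5
    have x2 := ex Q L5
    rw [hC5, hD5] at x1
    rw [hC5, hQ5] at x2
    exact cross (u := A ⬝ᵥ L5) (v := B ⬝ᵥ L5) (by linear_combination -x1) (by linear_combination -x2) hA5
  have c6 : (Q ⬝ᵥ L1 / b) * (R ⬝ᵥ L2 / c) = (R ⬝ᵥ L1 / b) * (Q ⬝ᵥ L2 / c) := by
    have x1 := ex Q L6
    have x2 := ex R L6
    rw [hA6, hQ6] at x1
    rw [hA6, hR6] at x2
    exact cross (u := B ⬝ᵥ L6) (v := C ⬝ᵥ L6) (by linear_combination -x1) (by linear_combination -x2) hB6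
  have c7 : (Q ⬝ᵥ L0 / a) * (S ⬝ᵥ L2 / c) = (S ⬝ᵥ L0 / a) * (Q ⬝ᵥ L2 / c) := by
    have x1 := ex Q L7
    have x2 := ex S L7
    rw [hB7, hQ7] at x1
    rw [hB7, hS7] at x2
    exact cross (u := A ⬝ᵥ L7) (v := C ⬝ᵥ L7) (by linear_combination -x1) (by linear_combination -x2) hA7
  have c8 : (R ⬝ᵥ L0 / a) * (S ⬝ᵥ L1 / b) = (S ⬝ᵥ L0 / a) * (R ⬝ᵥ L1 / b) := by
    have x1 := ex R L8
    have x2 := ex S L8
    rw [hC8, hR8] at x1
    rw [hC8, hS8] at x2
    exact cross (u := A ⬝ᵥ L8) (v := B ⬝ᵥ L8) (by linear_combination -x1) (by linear_combination -x2) hA8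
  have c9 : (E ⬝ᵥ L2 / c) * (G ⬝ᵥ L0 / a) * (S ⬝ᵥ L1 / b) =
      (E ⬝ᵥ L1 / b) * (G ⬝ᵥ L0 / a) * (S ⬝ᵥ L2 / c) +
        (E ⬝ᵥ L2 / c) * (G ⬝ᵥ L1 / b) * (S ⬝ᵥ L0 / a) := by
    have x1 := ex E L9
    have x2 := ex G L9
    have x3 := ex S L9
    rw [hE9, hE0] at x1
    rw [hG9, hG2] at x2
    rw [hS9] at x3
    have hA9' := hA9
    revert x1 x2 x3 hA9'
    generalize A ⬝ᵥ L9 = m0
    generalize B ⬝ᵥ L9 = m1
    generalize C ⬝ᵥ L9 = m2
    generalize E ⬝ᵥ L1 / b = e1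
    generalize E ⬝ᵥ L2 / c = e2
    generalize G ⬝ᵥ L0 / a = g0
    generalize G ⬝ᵥ L1 / b = g1
    generalize S ⬝ᵥ L0 / a = s0
    generalize S ⬝ᵥ L1 / b = s1
    generalize S ⬝ᵥ L2 / c = s2
    intro x1 x2 x3 hm
    have : m0 * (e2 * g0 * s1 - e1 * g0 * s2 - e2 * g1 * s0) = 0 := by
      linear_combination (-(g1 * s2)) * x1 + (e1 * s2 - e2 * s1) * x2 + (e2 * g1) * x3
    rcases mul_eq_zero.1 this with h | h
    · exact absurd h hm
    · linear_combination h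
  revert c3 c4 c5 c5' c6 c7 c8 c9 d0 d1 d2 e1 g0 q0 q2 r0 s0
  generalize D ⬝ᵥ L0 / a = d0
  generalize D ⬝ᵥ L1 / b = d1
  generalize D ⬝ᵥ L2 / c = d2
  generalize E ⬝ᵥ L1 / b = e1
  generalize E ⬝ᵥ L2 / c = e2
  generalize G ⬝ᵥ L0 / a = g0
  generalize G ⬝ᵥ L1 / b = g1
  generalize Q ⬝ᵥ L0 / a = q0
  generalize Q ⬝ᵥ L1 / b = q1
  generalize Q ⬝ᵥ L2 / c = q2
  generalize R ⬝ᵥ L0 / a = r0
  generalize R ⬝ᵥ L1 / b = r1
  generalize R ⬝ᵥ L2 / c = r2
  generalize S ⬝ᵥ L0 / a = s0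
  generalize S ⬝ᵥ L1 / b = s1
  generalize S ⬝ᵥ L2 / c = s2
  intro d0n d1n d2n e1n g0n q0n q2n r0n s0n c3 c4 c5 c5' c6 c7 c8 c9
  apply hF ((q2 * d0) / (q0 * d2))
  have E2 : e2 = e1 * d2 / d1 := by field_simp; linear_combination c3
  have R2 : r2 = r0 * d2 / d0 := by field_simp; linear_combination c4
  have G1 : g1 = g0 * d1 / d0 := by field_simp; linear_combination c5
  have Q1 : q1 = q0 * d1 / d0 := by field_simp; linear_combination c5'
  have R1 : r1 = q1 * r2 / q2 := by field_simp; linear_combination -c6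
  have S2 : s2 = s0 * q2 / q0 := by field_simp; linear_combination c7
  have S1 : s1 = s0 * r1 / r0 := by field_simp; linear_combination c8
  rw [S1, S2, R1, G1, E2, R2, Q1] at c9
  field_simp at c9 ⊢
  linear_combination -c9

end nonreal

lemma rat_no_sol (t : ℚ) : t ^ 2 + t ≠ 1 := by
  intro h
  have h5 : (2 * t + 1) ^ 2 = 5 := by linear_combination 4 * h
  have hirr : Irrational (Real.sqrt 5) := by
    have := Nat.Prime.irrational_sqrt (show Nat.Prime 5 by norm_num)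
    simpa using this
  apply hirr
  refine ⟨|2 * t + 1|, ?_⟩
  have : Real.sqrt 5 = |((2 * t + 1 : ℚ) : ℝ)| := by
    rw [← Real.sqrt_sq_eq_abs]
    congr 1
    have : (((2 * t + 1 : ℚ) ^ 2 : ℚ) : ℝ) = ((5 : ℚ) : ℝ) := by rw [h5]
    push_cast at this ⊢
    linarith
  rw [this]
  push_cast
  rfl

/-- Main result. -/
theorem result :
    ∃ (n : ℕ) (d : Fin n → ℕ) (P : ((k : Fin n) → Fin (d k)) → ℝ),
      (∀ k, d k = 2) ∧ (∀ x, 0 < P x) ∧
      ∀ Q : ((k : Fin n) → Fin (d k)) → ℚ, (∀ x, 0 < Q x) →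
        ∃ (i j : Fin n) (K : Finset (Fin n)), i ≠ j ∧ i ∉ K ∧ j ∉ K ∧
          ¬ (CI P i j K ↔ CI Q i j K) := by
  refine ⟨21, fun _ => 2, P, fun _ => rfl, P_pos, ?_⟩
  intro Q hQ
  by_contra hcon
  push Not at hcon
  have hlat : ∀ i j : Fin 21, i ∉ ({0, 1} : Finset (Fin 21)) → j ∉ ({0, 1} : Finset (Fin 21)) →
      i ≠ j → CI (d := fun _ => 2) Q i j {0, 1} := by
    intro i j hi hj hij
    exact (hcon i j {0, 1} hij hi hj).1 (CI_P_latent i j hi hj hij)
  have hinc : ∀ i j : Fin 21, i ∉ ({0, 1} : Finset (Fin 21)) → j ∉ ({0, 1} : Finset (Fin 21)) →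
      i ≠ j → (pt Q i ⬝ᵥ ln Q j = 0 ↔ vec i ⬝ᵥ vec j = 0) := by
    intro i j hi hj hij
    rw [pt_ln, ← inner_iff Q hQ i j hi hj hij (hlat i j hi hj hij),
      ← hcon i j ∅ hij (by simp) (by simp), CI_P_empty i j hi hj hij]
  have hz : ∀ i j : Fin 21, 1 < i → 1 < j → i ≠ j → vec i ⬝ᵥ vec j = 0 →
      pt Q i ⬝ᵥ ln Q j = 0 := by
    intro i j hi hj hij h
    refine (hinc i j ?_ ?_ hij).2 h
    · simp; constructor <;> rintro rfl <;> simp at hi
    · simp; constructor <;> rintro rfl <;> simp at hj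
  have hnz : ∀ i j : Fin 21, 1 < i → 1 < j → i ≠ j → vec i ⬝ᵥ vec j ≠ 0 →
      pt Q i ⬝ᵥ ln Q j ≠ 0 := by
    intro i j hi hj hij h h'
    refine h ((hinc i j ?_ ?_ hij).1 h')
    · simp; constructor <;> rintro rfl <;> simp at hi
    · simp; constructor <;> rintro rfl <;> simp at hj
  have t0 := tt_pos
  have t1 := tt_lt
  have t2 := tt_sq
  refine not_realizable rat_no_sol (pt Q 2) (pt Q 3) (pt Q 4) (pt Q 5) (pt Q 6) (pt Q 7) (pt Q 8)
    (pt Q 9) (pt Q 10) (ln Q 11) (ln Q 12) (ln Q 13) (ln Q 14) (ln Q 15) (ln Q 16) (ln Q 17)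
    (ln Q 18) (ln Q 19) (ln Q 20) ?_ ?_ ?_ ?_ ?_ ?_ ?_ ?_ ?_ ?_ ?_ ?_ ?_ ?_ ?_ ?_ ?_ ?_ ?_ ?_
    ?_ ?_ ?_ ?_ ?_ ?_ ?_ ?_ ?_ ?_ ?_ ?_ ?_ ?_ ?_ ?_ ?_ ?_ ?_ ?_ ?_ ?_ ?_ ?_ ?_ ?_ ?_ ?_ ?_
  all_goals
    first
      | (apply hz _ _ (by decide) (by decide) (by decide)
         simp [vec, dotProduct, Fin.sum_univ_three]
         try linarith)
      | (apply hnz _ _ (by decide) (by decide) (by decide)
         simp [vec, dotProduct, Fin.sum_univ_three]
         try (apply ne_of_gt; linarith))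

end Pool.Agent.Results.MP_c213cb_ag.NoRationalTable
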